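import Pool.Agent.SPH.Defs
import Pool.Agent.Helper5.D4.Jac2

/-!
# SPH: Jacobians of algebraically independent polynomials, Cramer relations
-/

set_option autoImplicit false

namespace Pool.Agent.SPH

open Pool.Agent.SPE

variable {K : Type*} [Field K] [CharZero K] {n r : ℕ}

/-- The Jacobian minor `det (∂_{ι l} T_j)`. -/
noncomputable def Jc (T : Fin r → MvPolynomial (Fin n) K) (ι : Fin r → Fin n) :
    MvPolynomial (Fin n) K :=
  (Matrix.of fun l j : Fin r => MvPolynomial.pderiv (ι l) (T j)).det

omit [CharZero K] in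
/- PLAN. For fixed `j` and `i`: `∂_i T_j * det A = ∑ l, ∂_{ι l} T_j * det (A with row l replaced by
(∂_i T_j')_j')`: Cramer's rule (`Matrix.mulVec_cramer` for the transpose, `Matrix.det_updateRow`,
`Function.update`). -/
theorem cramer_row (T : Fin r → MvPolynomial (Fin n) K) (ι : Fin r → Fin n) (i : Fin n)
    (j : Fin r) : MvPolynomial.pderiv i (T j) * Jc T ι =
      ∑ l, MvPolynomial.pderiv (ι l) (T j) * Jc T (Function.update ι l i) := by
  classical
  set A : Matrix (Fin r) (Fin r) (MvPolynomial (Fin n) K) :=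
    Matrix.of fun l j : Fin r => MvPolynomial.pderiv (ι l) (T j) with hA
  have h1 := congrFun (Matrix.mulVec_cramer A.transpose fun j => MvPolynomial.pderiv i (T j)) j
  rw [Matrix.det_transpose, Pi.smul_apply, smul_eq_mul, Matrix.mulVec, dotProduct] at h1
  have h2 : Jc T ι = A.det := rfl
  rw [h2, mul_comm, ← h1]
  refine Finset.sum_congr rfl fun l _ => ?_
  rw [Matrix.cramer_transpose_apply, Matrix.transpose_apply]
  have h3 : Jc T (Function.update ι l i) = (A.updateRow l fun j => MvPolynomial.pderiv i (T j)).det := by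
    unfold Jc
    congr 1
    ext1 l' j'
    by_cases hl : l' = l
    · subst hl
      rw [Matrix.updateRow_self, Matrix.of_apply, Function.update_self]
    · rw [Matrix.updateRow_ne hl, Matrix.of_apply, Function.update_of_ne hl]
      rfl
  rw [h3]
  rfl

/- PLAN. `Helper5.D4.exists_relation` (with `x = T`, `z = f`) and `Helper5.D4.chain_rule` give `d ≠ 0` and
`c j` with `d * ∂_i f + ∑ j, c j * ∂_i (T j) = 0` for all `i` (same `d`, `c`; see the proof of
`exists_jacobian_minor`).  Multiply the claim by `d` and use `cramer_row`. -/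
theorem star (T : Fin r → MvPolynomial (Fin n) K) (hT : AlgebraicIndependent K T)
    (f : MvPolynomial (Fin n) K)
    (hf : ¬ AlgebraicIndependent K (fun o : Option (Fin r) => o.elim f T)) (ι : Fin r → Fin n)
    (i : Fin n) : MvPolynomial.pderiv i f * Jc T ι =
      ∑ l, MvPolynomial.pderiv (ι l) f * Jc T (Function.update ι l i) := by
  obtain ⟨P, hP, hd⟩ := Pool.Agent.Helper5.D4.exists_relation (k := K) T hT f hf
  set d := MvPolynomial.aeval (fun o : Option (Fin r) => o.elim f T) (MvPolynomial.pderiv none P)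
    with hdd
  set c : Fin r → MvPolynomial (Fin n) K := fun j =>
    MvPolynomial.aeval (fun o : Option (Fin r) => o.elim f T) (MvPolynomial.pderiv (some j) P)
    with hc
  have hch : ∀ i : Fin n, d * MvPolynomial.pderiv i f + ∑ j, c j * MvPolynomial.pderiv i (T j) = 0 := by
    intro i
    have h2 := Pool.Agent.Helper5.D4.chain_rule (MvPolynomial.pderiv i)
      (fun o : Option (Fin r) => o.elim f T) P
    rw [hP, map_zero, Fintype.sum_option] at h2
    exact h2.symm
  have hch2 : ∀ i : Fin n, d * MvPolynomial.pderiv i f = -∑ j, c j * MvPolynomial.pderiv i (T j) :=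
    fun i => eq_neg_of_add_eq_zero_left (hch i)
  apply mul_left_cancel₀ hd
  rw [← mul_assoc, hch2, Finset.mul_sum]
  have h3 : ∀ l : Fin r, d * (MvPolynomial.pderiv (ι l) f * Jc T (Function.update ι l i)) =
      -∑ j, c j * (MvPolynomial.pderiv (ι l) (T j) * Jc T (Function.update ι l i)) := by
    intro l
    rw [← mul_assoc, hch2, neg_mul, Finset.sum_mul]
    congr 1
    exact Finset.sum_congr rfl fun j _ => mul_assoc _ _ _
  rw [Finset.sum_congr rfl fun l _ => h3 l, Finset.sum_neg_distrib, Finset.sum_comm, neg_mul,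
    Finset.sum_mul]
  congr 1
  refine Finset.sum_congr rfl fun j _ => ?_
  rw [mul_assoc, cramer_row, Finset.mul_sum]

omit [CharZero K] in
private theorem prod_Jc (T : Fin r → MvPolynomial (Fin n) K)
    (R G : Fin r → MvPolynomial (Fin n) K) (U : Fin r → Fin n → MvPolynomial (Fin n) K)
    (hU : ∀ j i, MvPolynomial.pderiv i (T j) * R j = U j i * G j) (ι : Fin r → Fin n) :
    (∏ j, R j) * Jc T ι = (∏ j, G j) * (Matrix.of fun l j : Fin r => U j (ι l)).det := by
  unfold Jc
  rw [← Matrix.det_mul_row, ← Matrix.det_mul_row]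
  congr 1
  ext1 l j
  simp only [Matrix.of_apply]
  rw [mul_comm, hU, mul_comm]

/- The version with `R j * ∂_i T_j = U j i * G j`.
PLAN. `(∏ R) * Jc T ι = (∏ G) * det (U j (ι l))` (`Matrix.det_mul_row` type lemmas, column `j` scaled);
cancel `∏ G ≠ 0` in the claims; `exists_jacobian_minor` (transpose: its matrix is indexed
`fun i j => pderiv (J j) (T i)`) for the nonvanishing. -/
theorem star' (T : Fin r → MvPolynomial (Fin n) K) (hT : AlgebraicIndependent K T)
    (f : MvPolynomial (Fin n) K)
    (hf : ¬ AlgebraicIndependent K (fun o : Option (Fin r) => o.elim f T))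
    (R G : Fin r → MvPolynomial (Fin n) K) (hR : ∀ j, R j ≠ 0) (hG : ∀ j, G j ≠ 0)
    (U : Fin r → Fin n → MvPolynomial (Fin n) K)
    (hU : ∀ j i, MvPolynomial.pderiv i (T j) * R j = U j i * G j) :
    (∃ ι : Fin r → Fin n, (Matrix.of fun l j : Fin r => U j (ι l)).det ≠ 0) ∧
    ∀ (ι : Fin r → Fin n) (i : Fin n),
      MvPolynomial.pderiv i f * (Matrix.of fun l j : Fin r => U j (ι l)).det =
      ∑ l, MvPolynomial.pderiv (ι l) f *
        (Matrix.of fun l' j : Fin r => U j (Function.update ι l i l')).det := by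
  have hR0 : (∏ j, R j) ≠ 0 := Finset.prod_ne_zero_iff.2 fun j _ => hR j
  have hG0 : (∏ j, G j) ≠ 0 := Finset.prod_ne_zero_iff.2 fun j _ => hG j
  have hJ := prod_Jc T R G U hU
  refine ⟨?_, fun ι i => ?_⟩
  · obtain ⟨J, hJ0⟩ := Pool.Agent.Helper5.D4.exists_jacobian_minor T hT
    refine ⟨J, fun h0 => hJ0 ?_⟩
    have h1 := hJ J
    rw [h0, mul_zero] at h1
    have h2 : Jc T J = 0 := (mul_eq_zero.1 h1).resolve_left hR0
    rw [← h2, ← Matrix.det_transpose]
    rfl
  · apply mul_left_cancel₀ hG0
    have h1 := congrArg (fun y => (∏ j, R j) * y) (star T hT f hf ι i)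
    simp only [Finset.mul_sum] at h1 ⊢
    have h2 : (∏ j, G j) * (MvPolynomial.pderiv i f * (Matrix.of fun l j : Fin r => U j (ι l)).det) =
        (∏ j, R j) * (MvPolynomial.pderiv i f * Jc T ι) := by
      rw [mul_left_comm, ← hJ ι, mul_left_comm]
    rw [h2, h1]
    refine Finset.sum_congr rfl fun l _ => ?_
    rw [mul_left_comm, hJ (Function.update ι l i), mul_left_comm]

end Pool.Agent.SPH
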