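import Mathlib

/-!
# SPH: normalisation of a family of polynomials over a valuation ring
-/

set_option autoImplicit false

namespace Pool.Agent.SPH

variable {σ : Type*} {O : Type*} [CommRing O] [IsDomain O] [ValuationRing O]
  {K : Type*} [Field K] [Algebra O K] [IsFractionRing O K]

/- PLAN. As `SPE.normalise` (Pool/Agent/SPE/Nrm.lean, copy its proof), over the finite set of pairs
`(i, ν)` with `(g i).coeff ν ≠ 0`. -/
theorem normalise_family {I : Type*} [Fintype I] (g : I → MvPolynomial σ K) (hg : ∃ i, g i ≠ 0) :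
    ∃ (x : K) (g' : I → MvPolynomial σ O), x ≠ 0 ∧
      (∀ i, MvPolynomial.map (algebraMap O K) (g' i) = x • g i) ∧ ∃ i ν, (g' i).coeff ν = 1 := by
  classical
  have hne : (Finset.univ.sigma fun i => (g i).support).Nonempty := by
    obtain ⟨i, hi⟩ := hg
    obtain ⟨ν, hν⟩ := MvPolynomial.support_nonempty.2 hi
    exact ⟨⟨i, ν⟩, Finset.mem_sigma.2 ⟨Finset.mem_univ _, hν⟩⟩
  obtain ⟨⟨i₀, ν⟩, hν, hmax⟩ := Finset.exists_max_image (Finset.univ.sigma fun i => (g i).support)
    (fun p => ValuationRing.valuation O K ((g p.1).coeff p.2)) hne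
  have hν0 : (g i₀).coeff ν ≠ 0 := MvPolynomial.mem_support_iff.1 (Finset.mem_sigma.1 hν).2
  have hq : ∀ i μ, ∃ o : O, algebraMap O K o = ((g i₀).coeff ν)⁻¹ * (g i).coeff μ := by
    intro i μ
    have h1 : ValuationRing.valuation O K (((g i₀).coeff ν)⁻¹ * (g i).coeff μ) ≤ 1 := by
      by_cases hμ : μ ∈ (g i).support
      · have h2 := hmax ⟨i, μ⟩ (Finset.mem_sigma.2 ⟨Finset.mem_univ _, hμ⟩)
        have h3 : (ValuationRing.valuation O K) ((g i₀).coeff ν) ≠ 0 :=
          (ValuationRing.valuation O K).ne_zero_iff.2 hν0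
        rw [map_mul, map_inv₀]
        calc _ ≤ ((ValuationRing.valuation O K) ((g i₀).coeff ν))⁻¹ *
              (ValuationRing.valuation O K) ((g i₀).coeff ν) := mul_le_mul_right h2 _
          _ = 1 := inv_mul_cancel₀ h3
      · rw [MvPolynomial.notMem_support_iff.1 hμ, mul_zero, map_zero]
        exact zero_le_one
    exact (ValuationRing.mem_integer_iff O K _).1 h1
  choose o ho using hq
  refine ⟨((g i₀).coeff ν)⁻¹, fun i => ∑ μ ∈ (g i).support, MvPolynomial.monomial μ (o i μ),
    inv_ne_zero hν0, fun i => ?_, i₀, ν, ?_⟩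
  · rw [map_sum]
    simp only [MvPolynomial.map_monomial, ho]
    have h1 : ((g i₀).coeff ν)⁻¹ • ∑ μ ∈ (g i).support, MvPolynomial.monomial μ ((g i).coeff μ) =
        ∑ μ ∈ (g i).support, MvPolynomial.monomial μ (((g i₀).coeff ν)⁻¹ * (g i).coeff μ) := by
      rw [Finset.smul_sum]
      refine Finset.sum_congr rfl fun μ _ => ?_
      rw [MvPolynomial.smul_monomial, smul_eq_mul]
    rw [← h1, ← (g i).as_sum]
  · rw [MvPolynomial.coeff_sum, Finset.sum_eq_single ν]
    · rw [MvPolynomial.coeff_monomial, if_pos rfl]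
      apply IsFractionRing.injective O K
      rw [ho, map_one, inv_mul_cancel₀ hν0]
    · intro μ _ hμ
      rw [MvPolynomial.coeff_monomial, if_neg hμ]
    · intro h
      exact absurd (Finset.mem_sigma.1 hν).2 h

end Pool.Agent.SPH
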