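import Pool.Agent.SPH.TrA

/-!
# SPH: transversality
-/

set_option autoImplicit false

namespace Pool.Agent.SPH

open MvPolynomial

variable {κ : Type*} [Field κ] [CharZero κ] {n r : ℕ}

omit [CharZero κ] in
private lemma tau_pderiv (p : Fin n → κ) (G : MvPolynomial (Fin n) κ) (i : Fin n) :
    pderiv i (aeval (fun j => C (p j) + X j : Fin n → MvPolynomial (Fin n) κ) G) =
      aeval (fun j => C (p j) + X j : Fin n → MvPolynomial (Fin n) κ) (pderiv i G) := by
  classical
  induction G using MvPolynomial.induction_on with
  | C a => simp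
  | add f g hf hg => simp only [map_add, hf, hg]
  | mul_X f j hf =>
    rw [map_mul, aeval_X, pderiv_mul, hf, pderiv_mul, map_add, map_add, map_mul, map_mul, aeval_X,
      pderiv_C, zero_add, pderiv_X]
    by_cases hij : i = j
    · subst hij
      simp
    · simp [Pi.single_apply, Ne.symm hij]

omit [CharZero κ] in
private lemma tau_coeff_zero (p : Fin n → κ) (G : MvPolynomial (Fin n) κ) :
    coeff 0 (aeval (fun j => C (p j) + X j : Fin n → MvPolynomial (Fin n) κ) G) = eval p G := by
  have h : ∀ H : MvPolynomial (Fin n) κ, coeff 0 H = eval 0 H := by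
    intro H
    rw [← constantCoeff_eq, eval_zero]
  rw [h]
  induction G using MvPolynomial.induction_on with
  | C a => simp
  | add f g hf hg => simp only [map_add, hf, hg]
  | mul_X f j hf => simp only [map_mul, hf, aeval_X, map_add, eval_C, eval_X, Pi.zero_apply, add_zero]

omit [CharZero κ] in
private lemma tau_inj (p : Fin n → κ) (G : MvPolynomial (Fin n) κ)
    (h : aeval (fun j => C (p j) + X j : Fin n → MvPolynomial (Fin n) κ) G = 0) : G = 0 := by
  have h1 : aeval (fun j => X j - C (p j) : Fin n → MvPolynomial (Fin n) κ)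
      (aeval (fun j => C (p j) + X j : Fin n → MvPolynomial (Fin n) κ) G) = G := by
    clear h
    induction G using MvPolynomial.induction_on with
    | C a => simp
    | add f g hf hg => simp only [map_add, hf, hg]
    | mul_X f j hf => simp only [map_mul, hf, aeval_X, map_add, algHom_C, algebraMap_eq,
        add_sub_cancel]
  rw [← h1, h, map_zero]

omit [CharZero κ] in
private lemma hc_pderiv (m : ℕ) (G : MvPolynomial (Fin n) κ) (i : Fin n) (d : Fin n →₀ ℕ) :
    coeff d (pderiv i (homogeneousComponent (m + 1) G)) =
      if d.degree = m then coeff d (pderiv i G) else 0 := by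
  rw [coeff_pderiv, coeff_homogeneousComponent, coeff_pderiv]
  have h : (d + Finsupp.single i 1).degree = d.degree + 1 := by
    rw [map_add, Finsupp.degree_single]
  rw [h]
  by_cases hd : d.degree = m
  · rw [if_pos hd, if_pos (by omega)]
  · rw [if_neg hd, if_neg (by omega), zero_mul]

omit [CharZero κ] in
private lemma coeff_mul_low (m : ℕ) (A B : MvPolynomial (Fin n) κ) (d : Fin n →₀ ℕ)
    (hd : d.degree = m) (hA : ∀ e : Fin n →₀ ℕ, e.degree < m → coeff e A = 0) :
    coeff d (A * B) = coeff d A * coeff 0 B := by
  classical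
  rw [coeff_mul]
  refine Finset.sum_eq_single (d, 0) ?_ ?_
  · rintro ⟨e, f⟩ hef hne
    have hef : e + f = d := Finset.HasAntidiagonal.mem_antidiagonal.1 hef
    simp only
    have hf : f ≠ 0 := by
      rintro rfl
      rw [add_zero] at hef
      exact hne (by rw [hef])
    have h1 : e.degree + f.degree = m := by
      rw [← hd, ← hef, map_add]
    have h2 : f.degree ≠ 0 := fun h => hf ((Finsupp.degree_eq_zero_iff f).1 h)
    rw [hA e (by omega), zero_mul]
  · intro h
    exact absurd (by simp) h

omit [CharZero κ] in
private lemma sum_update (w : Fin r → Fin n → κ) (g : Fin n → κ) (Q : (Fin r → Fin n) → κ)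
    (l : Fin r) (i : Fin n) :
    ∑ ι : Fin r → Fin n, (∏ l', w l' (ι l')) * (g (ι l) * Q (Function.update ι l i)) =
      (∑ a, w l a * g a) * ∑ ι : Fin r → Fin n with ι l = i,
        (∏ l' ∈ Finset.univ.erase l, w l' (ι l')) * Q ι := by
  classical
  rw [← Finset.sum_fiberwise (Finset.univ : Finset (Fin r → Fin n)) (fun ι => ι l), Finset.sum_mul]
  refine Finset.sum_congr rfl fun a _ => ?_
  rw [Finset.mul_sum]
  refine Finset.sum_nbij' (fun ι => Function.update ι l i) (fun ι => Function.update ι l a)
    ?_ ?_ ?_ ?_ ?_
  · intro ι _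
    simp
  · intro ι _
    simp
  · intro ι hι
    simp only [Finset.mem_filter, Finset.mem_univ, true_and] at hι
    simp only [Function.update_idem]
    rw [← hι, Function.update_eq_self]
  · intro ι hι
    simp only [Finset.mem_filter, Finset.mem_univ, true_and] at hι
    simp only [Function.update_idem]
    rw [← hι, Function.update_eq_self]
  · intro ι hι
    simp only [Finset.mem_filter, Finset.mem_univ, true_and] at hι
    rw [← Finset.mul_prod_erase Finset.univ (fun l' => w l' (ι l')) (Finset.mem_univ l), hι]
    have h1 : ∏ l' ∈ Finset.univ.erase l, w l' (Function.update ι l i l') =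
        ∏ l' ∈ Finset.univ.erase l, w l' (ι l') := by
      refine Finset.prod_congr rfl fun l' hl' => ?_
      rw [Function.update_of_ne (Finset.ne_of_mem_erase hl')]
    rw [h1]
    ring

/-- Main statement of the module. -/
theorem transversal (F : MvPolynomial (Fin n) κ) (hF : F ≠ 0)
    (J : (Fin r → Fin n) → MvPolynomial (Fin n) κ)
    (hJ : ∀ (ι : Fin r → Fin n) (i : Fin n), pderiv i F * J ι =
      ∑ l, pderiv (ι l) F * J (Function.update ι l i))
    (p : Fin n → κ) (v : Fin r → Fin n → κ)
    (hv : ∑ ι : Fin r → Fin n, (∏ l, v l (ι l)) * eval p (J ι) ≠ 0) :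
    aeval (fun i => C (p i) + ∑ l, C (v l i) * X l : Fin n → MvPolynomial (Fin r) κ) F ≠ 0 := by
  classical
  set τ : MvPolynomial (Fin n) κ →ₐ[κ] MvPolynomial (Fin n) κ :=
    aeval (fun j => C (p j) + X j : Fin n → MvPolynomial (Fin n) κ) with hτ
  set ψ : MvPolynomial (Fin n) κ →ₐ[κ] MvPolynomial (Fin r) κ :=
    aeval (fun i => ∑ l, C (v l i) * X l : Fin n → MvPolynomial (Fin r) κ) with hψ
  have hcomp : (aeval (fun i => C (p i) + ∑ l, C (v l i) * X l :
      Fin n → MvPolynomial (Fin r) κ)) F = ψ (τ F) := by
    rw [← AlgHom.comp_apply]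
    congr 1
    ext i
    simp [hτ, hψ]
  rw [hcomp]
  have hFp : τ F ≠ 0 := fun h => hF (tau_inj p F h)
  have hex : ∃ m, homogeneousComponent m (τ F) ≠ 0 := by
    by_contra hcon
    push Not at hcon
    refine hFp ?_
    rw [← sum_homogeneousComponent (τ F)]
    exact Finset.sum_eq_zero fun i _ => hcon i
  have hlow : ∀ k < Nat.find hex, homogeneousComponent k (τ F) = 0 := by
    intro k hk
    by_contra hne
    exact Nat.find_min hex hk hne
  have hm : homogeneousComponent (Nat.find hex) (τ F) ≠ 0 := Nat.find_spec hex
  generalize Nat.find hex = m at hlow hm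
  have hcoeff : ∀ e : Fin n →₀ ℕ, e.degree < m → coeff e (τ F) = 0 := by
    intro e he
    have h1 := congrArg (coeff e) (hlow _ he)
    rw [coeff_homogeneousComponent, if_pos rfl, coeff_zero] at h1
    exact h1
  -- the key hypothesis
  have hkey : ∃ c : Fin r → Fin n → κ, ∀ i, pderiv i (homogeneousComponent m (τ F)) =
      ∑ l, C (c l i) * ∑ a, C (v l a) * pderiv a (homogeneousComponent m (τ F)) := by
    rcases Nat.eq_zero_or_pos m with hm0 | hmpos
    · subst hm0
      refine ⟨0, fun i => ?_⟩
      rw [homogeneousComponent_zero]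
      simp
    · obtain ⟨m', rfl⟩ : ∃ m', m = m' + 1 := ⟨m - 1, by omega⟩
      refine ⟨fun l i => (∑ ι : Fin r → Fin n, (∏ l, v l (ι l)) * eval p (J ι))⁻¹ *
        ∑ ι : Fin r → Fin n with ι l = i,
          (∏ l' ∈ Finset.univ.erase l, v l' (ι l')) * eval p (J ι), fun i => ?_⟩
      ext d
      rw [coeff_sum]
      simp only [coeff_C_mul, coeff_sum]
      simp only [hc_pderiv]
      by_cases hd : d.degree = m'
      · simp only [if_pos hd]
        have hrel : ∀ (ι : Fin r → Fin n) (i : Fin n),
            coeff d (pderiv i (τ F)) * eval p (J ι) =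
              ∑ l, coeff d (pderiv (ι l) (τ F)) * eval p (J (Function.update ι l i)) := by
          intro ι i
          have hlowd : ∀ (a : Fin n) (e : Fin n →₀ ℕ), e.degree < m' →
              coeff e (pderiv a (τ F)) = 0 := by
            intro a e he
            rw [coeff_pderiv, hcoeff, zero_mul]
            rw [map_add, Finsupp.degree_single]
            omega
          have h1 := congrArg (fun G => coeff d (τ G)) (hJ ι i)
          simp only [map_mul, map_sum, coeff_sum] at h1
          rw [hτ, ← tau_pderiv, ← hτ, coeff_mul_low m' _ _ d hd (hlowd i), hτ, tau_coeff_zero, ← hτ] at h1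
          rw [h1]
          refine Finset.sum_congr rfl fun l _ => ?_
          rw [hτ, ← tau_pderiv, ← hτ, coeff_mul_low m' _ _ d hd (hlowd (ι l)), hτ, tau_coeff_zero]
        have h2 : coeff d (pderiv i (τ F)) *
            (∑ ι : Fin r → Fin n, (∏ l, v l (ι l)) * eval p (J ι)) =
            ∑ l, (∑ a, v l a * coeff d (pderiv a (τ F))) *
              ∑ ι : Fin r → Fin n with ι l = i,
                (∏ l' ∈ Finset.univ.erase l, v l' (ι l')) * eval p (J ι) := by
          calc coeff d (pderiv i (τ F)) *
              (∑ ι : Fin r → Fin n, (∏ l, v l (ι l)) * eval p (J ι))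
              = ∑ ι : Fin r → Fin n, ∑ l, (∏ l', v l' (ι l')) *
                  (coeff d (pderiv (ι l) (τ F)) * eval p (J (Function.update ι l i))) := by
                rw [Finset.mul_sum]
                refine Finset.sum_congr rfl fun ι _ => ?_
                rw [← Finset.mul_sum, ← hrel ι i]
                ring
            _ = ∑ l, ∑ ι : Fin r → Fin n, (∏ l', v l' (ι l')) *
                  (coeff d (pderiv (ι l) (τ F)) * eval p (J (Function.update ι l i))) :=
                Finset.sum_comm
            _ = _ := by
                refine Finset.sum_congr rfl fun l _ => ?_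
                exact sum_update v (fun a => coeff d (pderiv a (τ F))) (fun ι => eval p (J ι)) l i
        have h3 : coeff d (pderiv i (τ F)) =
            (∑ ι : Fin r → Fin n, (∏ l, v l (ι l)) * eval p (J ι))⁻¹ *
            ∑ l, (∑ a, v l a * coeff d (pderiv a (τ F))) *
              ∑ ι : Fin r → Fin n with ι l = i,
                (∏ l' ∈ Finset.univ.erase l, v l' (ι l')) * eval p (J ι) := by
          rw [← h2, mul_comm, mul_assoc, mul_inv_cancel₀ hv, mul_one]
        rw [h3, Finset.mul_sum]
        refine Finset.sum_congr rfl fun l _ => ?_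
        ring
      · simp [if_neg hd]
  obtain ⟨c, hc⟩ := hkey
  have hG := phi_psi v c m (homogeneousComponent m (τ F)) (homogeneousComponent_isHomogeneous m _) hc
  have hψm : ψ (homogeneousComponent m (τ F)) ≠ 0 := by
    intro h0
    rw [← hψ, h0, map_zero] at hG
    exact hm hG.symm
  intro h0
  refine hψm ?_
  have hhom : ∀ k, (ψ (homogeneousComponent k (τ F))).IsHomogeneous k := by
    intro k
    have h1 := (homogeneousComponent_isHomogeneous k (τ F)).aeval
      (fun i => ∑ l, C (v l i) * X l : Fin n → MvPolynomial (Fin r) κ) (n := 1)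
      (fun i => IsHomogeneous.sum _ _ _ fun l _ => isHomogeneous_C_mul_X _ _)
    rw [one_mul] at h1
    exact h1
  have hsum : ψ (τ F) = ∑ k ∈ Finset.range ((τ F).totalDegree + 1),
      ψ (homogeneousComponent k (τ F)) := by
    rw [← map_sum, sum_homogeneousComponent]
  have h1 : homogeneousComponent m (ψ (τ F)) = ψ (homogeneousComponent m (τ F)) := by
    rw [hsum, map_sum]
    have h2 : ∀ k, homogeneousComponent m (ψ (homogeneousComponent k (τ F))) =
        if k = m then ψ (homogeneousComponent m (τ F)) else 0 := by
      intro k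
      rw [homogeneousComponent_of_mem ((mem_homogeneousSubmodule k _).2 (hhom k))]
      by_cases hk : k = m
      · subst hk
        simp
      · rw [if_neg hk, if_neg (fun h => hk h.symm)]
    simp only [h2]
    rw [Finset.sum_ite_eq']
    by_cases hmem : m ∈ Finset.range ((τ F).totalDegree + 1)
    · rw [if_pos hmem]
    · rw [if_neg hmem]
      rw [Finset.mem_range, not_lt] at hmem
      rw [homogeneousComponent_eq_zero m (τ F) (by omega), map_zero]
  rw [← h1, h0, map_zero]

end Pool.Agent.SPH
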