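import Mathlib

/-!
# SPH: transcendence bases of finite families of polynomials
-/

set_option autoImplicit false

namespace Pool.Agent.SPH

theorem exists_trbasis {K E : Type*} [Field K] [CommRing E] [IsDomain E] [Algebra K E] {N k : ℕ}
    (T : Fin N → E) (htr : ∀ ι : Fin (k + 1) → Fin N, ¬ AlgebraicIndependent K (fun j => T (ι j)))
    (f : E) (hf : IsAlgebraic (Algebra.adjoin K (Set.range T)) f) :
    ∃ (r : ℕ) (ι : Fin r → Fin N), r ≤ k ∧ AlgebraicIndependent K (fun j => T (ι j)) ∧
      ¬ AlgebraicIndependent K (fun o : Option (Fin r) => o.elim f (fun j => T (ι j))) := by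
  obtain ⟨s, hs⟩ := (AlgebraicIndependent.matroid K E).exists_isBasis (Set.range T)
  obtain ⟨h1, h2, -⟩ := AlgebraicIndependent.matroid_isBasis_iff.1 hs
  have hfin : s.Finite := (Set.finite_range T).subset h2
  have : Finite s := hfin
  obtain ⟨r, ⟨e⟩⟩ := Finite.exists_equiv_fin s
  have hex : ∀ j : Fin r, ∃ i : Fin N, T i = (e.symm j).1 := fun j => h2 (e.symm j).2
  choose ι hι using hex
  have hind : AlgebraicIndependent K (fun j => T (ι j)) := by
    have h3 := AlgebraicIndependent.comp h1 (fun j => e.symm j) e.symm.injective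
    have h4 : (fun j => T (ι j)) = (fun x : s => id x.1) ∘ fun j => e.symm j := funext fun j => hι j
    rw [h4]
    exact h3
  have hrange : Set.range (fun j => T (ι j)) = s := by
    ext x
    constructor
    · rintro ⟨j, rfl⟩
      show T (ι j) ∈ s
      rw [hι j]
      exact (e.symm j).2
    · intro hx
      refine ⟨e ⟨x, hx⟩, ?_⟩
      show T (ι (e ⟨x, hx⟩)) = x
      rw [hι, Equiv.symm_apply_apply]
  refine ⟨r, ι, ?_, hind, ?_⟩
  · by_contra hr
    exact htr (fun j => ι (Fin.castLE (by omega) j)) (AlgebraicIndependent.comp hind (Fin.castLE (by omega))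
      (Fin.castLE_injective _))
  · rw [hind.option_iff_transcendental f, hrange]
    intro htr'
    exact htr' ((AlgebraicIndependent.isAlgebraic_adjoin_iff_of_matroid_isBasis hs).2 hf)

end Pool.Agent.SPH
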