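import Pool.Agent.SPH.Defs

/-!
# SPH: the polynomials `UU`
-/

set_option autoImplicit false

namespace Pool.Agent.SPH

open Pool.Agent.SPE

variable {σ : Type*} {K : Type*} [Field K]

theorem uul_ind {R : Type*} [CommRing R] {A : Type*} [CommRing A] [Algebra R A] (D : Derivation R A A)
    {ι : Type*} [DecidableEq ι] (g : ι → A) (q : ι → ℕ) (s : Finset ι) :
    D (∏ a ∈ s, g a ^ q a) * ∏ a ∈ s, g a =
      (∑ a ∈ s, q a • (D (g a) * ∏ b ∈ s.erase a, g b)) * ∏ a ∈ s, g a ^ q a := by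
  induction s using Finset.induction_on with
  | empty =>
    rw [Finset.prod_empty, Finset.prod_empty, Finset.sum_empty, D.map_one_eq_zero]
  | insert a s ha ih =>
    have h1 : D (g a ^ q a) * g a = q a • D (g a) * g a ^ q a := by
      rw [D.leibniz_pow]
      rcases Nat.eq_zero_or_pos (q a) with h0 | h0
      · rw [h0, zero_smul, zero_smul, zero_mul, zero_mul]
      · have h2 : g a ^ q a = g a ^ (q a - 1) * g a := by
          rw [← pow_succ, Nat.sub_add_cancel h0]
        rw [h2, smul_eq_mul, nsmul_eq_mul, nsmul_eq_mul]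
        ring
    have h3 : ∑ b ∈ s, q b • (D (g b) * ∏ c ∈ (insert a s).erase b, g c) =
        g a * ∑ b ∈ s, q b • (D (g b) * ∏ c ∈ s.erase b, g c) := by
      rw [Finset.mul_sum]
      refine Finset.sum_congr rfl fun b hb => ?_
      have hab : a ≠ b := fun h => ha (h ▸ hb)
      have hna : a ∉ s.erase b := fun h => ha (Finset.mem_of_mem_erase h)
      rw [Finset.erase_insert_of_ne hab, Finset.prod_insert hna, nsmul_eq_mul, nsmul_eq_mul]
      ring
    rw [Finset.prod_insert ha, Finset.prod_insert ha, Finset.sum_insert ha, Finset.erase_insert ha, h3, D.leibniz,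
      smul_eq_mul, smul_eq_mul]
    have h4 : (g a ^ q a * D (∏ a ∈ s, g a ^ q a) + (∏ a ∈ s, g a ^ q a) * D (g a ^ q a)) * (g a * ∏ a ∈ s, g a) =
        g a ^ q a * g a * (D (∏ a ∈ s, g a ^ q a) * ∏ a ∈ s, g a) +
        (D (g a ^ q a) * g a) * ((∏ a ∈ s, g a ^ q a) * ∏ a ∈ s, g a) := by ring
    rw [h4, ih, h1, nsmul_eq_mul, nsmul_eq_mul]
    ring

theorem uul_td (i : σ) (v : MvPolynomial σ K) :
    (MvPolynomial.pderiv i v).totalDegree ≤ v.totalDegree := by
  classical
  rw [MvPolynomial.totalDegree, Finset.sup_le_iff]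
  intro m hm
  rw [MvPolynomial.mem_support_iff, MvPolynomial.coeff_pderiv] at hm
  have h1 : v.coeff (m + Finsupp.single i 1) ≠ 0 := fun h => hm (by rw [h, zero_mul])
  have h2 := MvPolynomial.le_totalDegree (MvPolynomial.mem_support_iff.2 h1)
  have h3 : ((m + Finsupp.single i 1).sum fun _ e => e) = (m.sum fun _ e => e) + 1 := by
    rw [Finsupp.sum_add_index' (fun _ => rfl) (fun _ _ _ => rfl), Finsupp.sum_single_index rfl]
  omega

theorem UU_eq {m : ℕ} (Q H w : MvPolynomial σ K) (g : Fin m → MvPolynomial σ K) (q : Fin m → ℕ)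
    (i : σ) (hw : H * MvPolynomial.pderiv i Q = Q * w) :
    MvPolynomial.pderiv i (Q * ∏ a, g a ^ q a) * (H * ∏ a, g a) =
      UU H w g q i * (Q * ∏ a, g a ^ q a) := by
  have h1 := uul_ind (MvPolynomial.pderiv i) g q Finset.univ
  unfold UU
  rw [(MvPolynomial.pderiv i).leibniz, smul_eq_mul, smul_eq_mul]
  have h2 : (Q * MvPolynomial.pderiv i (∏ a, g a ^ q a) + (∏ a, g a ^ q a) * MvPolynomial.pderiv i Q) *
      (H * ∏ a, g a) =
      Q * H * (MvPolynomial.pderiv i (∏ a, g a ^ q a) * ∏ a, g a) +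
      (H * MvPolynomial.pderiv i Q) * (∏ a, g a) * ∏ a, g a ^ q a := by ring
  rw [h2, h1, hw]
  ring

theorem sum_degree {ι : Type*} [DecidableEq ι] (s : Finset ι) (g : ι → MvPolynomial σ K) (q : ι → ℕ)
    (i : σ) (hg : ∀ a ∈ s, g a ≠ 0) :
    (∑ a ∈ s, q a • (MvPolynomial.pderiv i (g a) * ∏ b ∈ s.erase a, g b)).totalDegree ≤
      (∏ a ∈ s, g a).totalDegree := by
  refine MvPolynomial.totalDegree_finsetSum_le fun a ha => ?_
  refine (MvPolynomial.totalDegree_smul_le _ _).trans ?_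
  have h3 : ∏ b ∈ s.erase a, g b ≠ 0 :=
    Finset.prod_ne_zero_iff.2 fun b hb => hg b (Finset.mem_of_mem_erase hb)
  rw [← Finset.mul_prod_erase s g ha, MvPolynomial.totalDegree_mul_of_isDomain (hg a ha) h3]
  have h4 := MvPolynomial.totalDegree_mul (MvPolynomial.pderiv i (g a)) (∏ b ∈ s.erase a, g b)
  have h5 := uul_td i (g a)
  omega

theorem UU_degree {m : ℕ} (H w : MvPolynomial σ K) (g : Fin m → MvPolynomial σ K) (q : Fin m → ℕ)
    (i : σ) (d : ℕ) (h0 : H * ∏ a, g a ≠ 0) (hd : (H * ∏ a, g a).totalDegree ≤ d)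
    (hw : w.totalDegree ≤ H.totalDegree) : (UU H w g q i).totalDegree ≤ d := by
  have hh : H ≠ 0 := left_ne_zero_of_mul h0
  have hG : ∏ a, g a ≠ 0 := right_ne_zero_of_mul h0
  have hg : ∀ a, g a ≠ 0 := fun a => Finset.prod_ne_zero_iff.1 hG a (Finset.mem_univ a)
  rw [MvPolynomial.totalDegree_mul_of_isDomain hh hG] at hd
  unfold UU
  refine (MvPolynomial.totalDegree_add _ _).trans (max_le ?_ ?_)
  · have h1 := MvPolynomial.totalDegree_mul w (∏ a, g a)
    omega
  · have h1 := MvPolynomial.totalDegree_mul H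
      (∑ a, q a • (MvPolynomial.pderiv i (g a) * ∏ b ∈ Finset.univ.erase a, g b))
    have h2 := sum_degree Finset.univ g q i fun a _ => hg a
    omega

end Pool.Agent.SPH
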