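import Pool.Agent.SPH.Defs

/-!
# SPH: examples of terms
-/

set_option autoImplicit false

namespace Pool.Agent.SPH

open MvPolynomial Pool.Agent.SPE

variable {σ : Type*} [Fintype σ] {K : Type*} [Field K]

theorem term_prod (c d m : ℕ) (hm : m ≤ d) (p : Fin m → MvPolynomial (Fin c) K)
    (e : Fin m → Fin c → K) (l : Fin m → Fin c → σ → K) (b : Fin m → ℕ)
    (hp : ∀ i, (p i).totalDegree ≤ d) (hb : ∀ i, 1 ≤ b i)
    (hd : (∏ i, junta (p i) (e i) (l i)).totalDegree ≤ d) :
    Term c 1 d (∏ i, junta (p i) (e i) (l i) ^ b i) := by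
  refine ⟨0, fun a => a.elim0, fun a => a.elim0, fun a => a.elim0, m, p, e, l, b, hm,
    fun a => a.elim0, ?_, hp, hb, ?_, ?_⟩
  · rw [Fin.prod_univ_zero]
  · rw [Fin.prod_univ_zero, one_mul]
    exact hd
  · rw [Fin.prod_univ_zero, one_mul]

private theorem pderiv_aff (e : K) (l : σ → K) (i : σ) :
    MvPolynomial.pderiv i (aff e l) = MvPolynomial.C (l i) := by
  classical
  unfold aff
  rw [map_add, MvPolynomial.pderiv_C, zero_add, map_sum, Finset.sum_eq_single i]
  · rw [MvPolynomial.pderiv_C_mul, MvPolynomial.pderiv_X_self, mul_one]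
  · intro j _ hj
    rw [MvPolynomial.pderiv_C_mul, MvPolynomial.pderiv_X_of_ne hj, mul_zero]
  · intro h
    exact absurd (Finset.mem_univ i) h

theorem term_sum_pow (A c d m r : ℕ) (hm : m ≤ d) (p : Fin m → MvPolynomial (Fin c) K)
    (e : Fin m → Fin c → K) (l : Fin m → Fin c → σ → K) (b : Fin m → ℕ)
    (hp : ∀ i, (p i).totalDegree ≤ d) (hb : ∀ i, 1 ≤ b i)
    (a e0 : Fin A → Fin r → K) (l0 : Fin A → Fin r → σ → K) (q : Fin A → Fin r → ℕ)
    (hq : ∀ v i, q v i ≤ d) (b0 : Fin A → ℕ) (hb0 : ∀ v, 1 ≤ b0 v)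
    (hd : ((∏ v, ∑ i, MvPolynomial.C (a v i) * aff (e0 v i) (l0 v i) ^ q v i) *
      ∏ i, junta (p i) (e i) (l i)).totalDegree ≤ d) :
    Term c ((r * (d + 1)) ^ A) d
      ((∏ v, (∑ i, MvPolynomial.C (a v i) * aff (e0 v i) (l0 v i) ^ q v i) ^ b0 v) *
        ∏ i, junta (p i) (e i) (l i) ^ b i) := by
  classical
  set g : Fin A → Fin r × Fin (d + 1) → MvPolynomial σ K :=
    fun v x => aff (e0 v x.1) (l0 v x.1) ^ (x.2 : ℕ) with hg
  refine ⟨A, _, fun v => Submodule.span K (Set.range (g v)), b0, m, p, e, l, b, hm,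
    fun v => ⟨?_, ?_, ?_, hb0 v⟩, ?_, hp, hb, hd, rfl⟩
  · refine Submodule.sum_mem _ fun i _ => ?_
    rw [← MvPolynomial.smul_eq_C_mul]
    exact Submodule.smul_mem _ _
      (Submodule.subset_span ⟨(i, ⟨q v i, Nat.lt_succ_of_le (hq v i)⟩), rfl⟩)
  · intro x hx i
    refine Submodule.span_induction (p := fun x _ => MvPolynomial.pderiv i x ∈
      Submodule.span K (Set.range (g v))) ?_ ?_ ?_ ?_ hx
    · rintro _ ⟨⟨j, b'⟩, rfl⟩
      rcases Nat.eq_zero_or_pos (b' : ℕ) with hb' | hb'
      · have h1 : g v (j, b') = 1 := by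
          rw [hg]
          simp only [hb', pow_zero]
        rw [h1, Derivation.map_one_eq_zero]
        exact Submodule.zero_mem _
      · have h1 : MvPolynomial.pderiv i (g v (j, b')) =
            ((b' : ℕ) * l0 v j i : K) • g v (j, ⟨(b' : ℕ) - 1, by omega⟩) := by
          rw [hg]
          simp only
          rw [Derivation.leibniz_pow, pderiv_aff]
          simp only [smul_eq_mul, nsmul_eq_mul, MvPolynomial.smul_eq_C_mul, map_mul, map_natCast]
          ring
        rw [h1]
        exact Submodule.smul_mem _ _ (Submodule.subset_span ⟨_, rfl⟩)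
    · rw [map_zero]
      exact Submodule.zero_mem _
    · intro x y _ _ hx hy
      rw [map_add]
      exact Submodule.add_mem _ hx hy
    · intro x y _ hy
      rw [Derivation.map_smul]
      exact Submodule.smul_mem _ _ hy
  · exact FiniteDimensional.span_of_finite K (Set.finite_range (g v))
  · calc ∏ v, Module.finrank K (Submodule.span K (Set.range (g v))) ≤ ∏ _v : Fin A, r * (d + 1) := by
          refine Finset.prod_le_prod' fun v _ => ?_
          refine (finrank_range_le_card (g v)).trans ?_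
          rw [Fintype.card_prod, Fintype.card_fin, Fintype.card_fin]
      _ = (r * (d + 1)) ^ A := by
          rw [Finset.prod_const, Finset.card_univ, Fintype.card_fin]

end Pool.Agent.SPH
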