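import Pool.Agent.SPE.Defs
import Mathlib.Combinatorics.Nullstellensatz

/-!
# SPH: the points as polynomials in the parameters
-/

set_option autoImplicit false

namespace Pool.Agent.SPH

open MvPolynomial Pool.Agent.SPE

variable {F : Type*} [Field F]

private theorem par_grid {τ : Type*} [Finite τ] [CharZero F] (P : MvPolynomial τ F) (hP : P ≠ 0)
    (b : τ → ℕ) (hb : ∀ i, P.degreeOf i ≤ b i) :
    ∃ y : τ → ℕ, (∀ l, y l ≤ b l) ∧ eval (fun l => (y l : F)) P ≠ 0 := by
  classical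
  by_contra hcon
  push Not at hcon
  apply hP
  refine eq_zero_of_eval_zero_at_prod_finset P
    (fun i => (Finset.range (b i + 1)).image (fun j : ℕ => (j : F))) ?_ ?_
  · intro i
    rw [Finset.card_image_of_injective _ Nat.cast_injective, Finset.card_range]
    exact Nat.lt_succ_of_le (hb i)
  · intro x hx
    have hex : ∀ i, ∃ j : ℕ, j ≤ b i ∧ (j : F) = x i := by
      intro i
      obtain ⟨j, hj, hj'⟩ := Finset.mem_image.1 (hx i)
      exact ⟨j, Nat.lt_succ_iff.1 (Finset.mem_range.1 hj), hj'⟩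
    choose y hy hy' using hex
    have h1 := hcon y hy
    have h2 : (fun l => (y l : F)) = x := funext hy'
    rwa [h2] at h1

private theorem par_degreeOf {σ τ : Type*} [Fintype σ] (Y : σ → MvPolynomial τ F) (j : τ) (b : ℕ)
    (hY : ∀ i, (Y i).degreeOf j ≤ b) (f : MvPolynomial σ F) :
    (aeval Y f).degreeOf j ≤ f.totalDegree * b := by
  classical
  rw [aeval_def, eval₂_eq']
  refine (degreeOf_sum_le _ _ _).trans (Finset.sup_le fun ν hν => ?_)
  refine (degreeOf_mul_le _ _ _).trans ?_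
  rw [algebraMap_eq, degreeOf_C, zero_add]
  refine (degreeOf_prod_le _ _ _).trans ?_
  calc ∑ i, (Y i ^ ν i).degreeOf j ≤ ∑ i, ν i * b := by
        refine Finset.sum_le_sum fun i _ => (degreeOf_pow_le _ _ _).trans ?_
        exact Nat.mul_le_mul_left _ (hY i)
    _ = (∑ i, ν i) * b := by rw [Finset.sum_mul]
    _ ≤ f.totalDegree * b := by
        refine Nat.mul_le_mul_right _ ?_
        have h1 := le_totalDegree hν
        rwa [Finsupp.sum_fintype _ _ (fun _ => rfl)] at h1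

/-- The parameters `u, z, t, y_l, ζ_l`. -/
abbrev Tau (k : ℕ) : Type := (Fin 3 ⊕ Fin k) ⊕ Fin k

/-- `A_i(p) = ∑_{r=1..M} (M!/r) (i p)^r` for a polynomial `p`. -/
noncomputable def AP (M i : ℕ) {τ : Type*} (p : MvPolynomial τ F) : MvPolynomial τ F :=
  ∑ r ∈ Finset.Icc 1 M, C ((M.factorial / r : ℕ) : F) * (C (i : F) * p) ^ r

/-- The `i`-th coordinate of the points. -/
noncomputable def XP (F : Type*) [Field F] (M k i : ℕ) : MvPolynomial (Tau k) F :=
  AP M (i + 1) (X (Sum.inl (Sum.inl 0))) + X (Sum.inl (Sum.inl 1)) *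
    AP M (i + 1) (X (Sum.inl (Sum.inl 2))) + ∑ l, X (Sum.inr l) * X (Sum.inl (Sum.inr l)) ^ i

private theorem AP_eval (M i : ℕ) {τ : Type*} (p : MvPolynomial τ F) (v : τ → F) (t : ℕ)
    (ht : eval v p = (t : F)) : eval v (AP M i p) = (AA M i t : ℕ) := by
  unfold AP AA
  rw [map_sum, Nat.cast_sum]
  refine Finset.sum_congr rfl fun r _ => ?_
  rw [map_mul, map_pow, map_mul, eval_C, eval_C, ht, Nat.cast_mul, Nat.cast_pow, Nat.cast_mul]

theorem XP_eval (M k i : ℕ) (v : Tau k → ℕ) : eval (fun a => (v a : F)) (XP F M k i) =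
    ((AA M (i + 1) (v (Sum.inl (Sum.inl 0))) + v (Sum.inl (Sum.inl 1)) *
      AA M (i + 1) (v (Sum.inl (Sum.inl 2))) +
        ∑ l, v (Sum.inr l) * v (Sum.inl (Sum.inr l)) ^ i : ℕ) : F) := by
  have h0 := AP_eval (F := F) M (i + 1) (X (Sum.inl (Sum.inl 0)) : MvPolynomial (Tau k) F)
    (fun a => (v a : F)) (v (Sum.inl (Sum.inl 0))) (eval_X _)
  have h2 := AP_eval (F := F) M (i + 1) (X (Sum.inl (Sum.inl 2)) : MvPolynomial (Tau k) F)
    (fun a => (v a : F)) (v (Sum.inl (Sum.inl 2))) (eval_X _)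
  unfold XP
  rw [map_add, map_add, map_mul, map_sum, h0, h2, eval_X, Nat.cast_add, Nat.cast_add,
    Nat.cast_mul, Nat.cast_sum]
  congr 1
  refine Finset.sum_congr rfl fun l _ => ?_
  rw [map_mul, map_pow, eval_X, eval_X, Nat.cast_mul, Nat.cast_pow]

private theorem AP_degree (M i : ℕ) {τ : Type*} (p : MvPolynomial τ F) (j : τ) (b : ℕ)
    (hb : p.degreeOf j ≤ b) : (AP M i p).degreeOf j ≤ M * b := by
  unfold AP
  refine (degreeOf_sum_le _ _ _).trans (Finset.sup_le fun r hr => ?_)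
  refine (degreeOf_mul_le _ _ _).trans ?_
  rw [degreeOf_C, zero_add]
  refine (degreeOf_pow_le _ _ _).trans ?_
  refine Nat.mul_le_mul (Finset.mem_Icc.1 hr).2 ?_
  refine (degreeOf_mul_le _ _ _).trans ?_
  rw [degreeOf_C, zero_add]
  exact hb

/-- The degrees of the coordinates in the parameters. -/
def bd (M n k : ℕ) : Tau k → ℕ := Sum.elim (Sum.elim ![M, 1, M] fun _ => n) fun _ => 1

theorem XP_degree (M n k i : ℕ) (hi : i ≤ n) (j : Tau k) : (XP F M k i).degreeOf j ≤ bd M n k j := by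
  classical
  have hX : ∀ a b : Tau k, (X a : MvPolynomial (Tau k) F).degreeOf b ≤ if b = a then 1 else 0 := by
    intro a b
    rw [degreeOf_X]
  have hA : ∀ a : Tau k, (AP M (i + 1) (X a : MvPolynomial (Tau k) F)).degreeOf j ≤
      M * if j = a then 1 else 0 := fun a => AP_degree M (i + 1) _ j _ (hX a j)
  have h1 : (XP F M k i).degreeOf j ≤ max (max (M * if j = Sum.inl (Sum.inl 0) then 1 else 0)
      ((if j = Sum.inl (Sum.inl 1) then 1 else 0) + M * if j = Sum.inl (Sum.inl 2) then 1 else 0))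
      (Finset.univ.sup fun l : Fin k => (if j = Sum.inr l then 1 else 0) +
        i * if j = Sum.inl (Sum.inr l) then 1 else 0) := by
    unfold XP
    refine (degreeOf_add_le _ _ _).trans (max_le_max ((degreeOf_add_le _ _ _).trans
      (max_le_max (hA _) ((degreeOf_mul_le _ _ _).trans (Nat.add_le_add (hX _ _) (hA _))))) ?_)
    refine (degreeOf_sum_le _ _ _).trans (Finset.sup_mono_fun fun l _ => ?_)
    refine (degreeOf_mul_le _ _ _).trans (Nat.add_le_add (hX _ _) ?_)
    exact (degreeOf_pow_le _ _ _).trans (Nat.mul_le_mul_left _ (hX _ _))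
  refine h1.trans ?_
  rcases j with (j | l) | l
  · fin_cases j <;> simp [bd]
  · simp only [bd, Sum.elim_inl, Sum.elim_inr]
    refine max_le (max_le ?_ ?_) (Finset.sup_le fun l' _ => ?_)
    · simp
    · simp
    · split_ifs <;> simp_all
  · simp only [bd, Sum.elim_inr]
    refine max_le (max_le ?_ ?_) (Finset.sup_le fun l' _ => ?_)
    · simp
    · simp
    · split_ifs <;> simp_all

/-- Divisors of products. -/
theorem par_hit [CharZero F] (M n k m D : ℕ) (P : Fin m → MvPolynomial (Fin n) F)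
    (hP : ∀ j, ∃ v : Tau k → ℕ, eval (fun i : Fin n => ((AA M (i + 1) (v (Sum.inl (Sum.inl 0))) +
      v (Sum.inl (Sum.inl 1)) * AA M (i + 1) (v (Sum.inl (Sum.inl 2))) +
        ∑ l, v (Sum.inr l) * v (Sum.inl (Sum.inr l)) ^ (i : ℕ) : ℕ) : F)) (P j) ≠ 0)
    (g : MvPolynomial (Fin n) F) (hg : g ∣ ∏ j, P j) (hD : g.totalDegree ≤ D) :
    ∃ v : Tau k → ℕ, (∀ a, v a ≤ D * bd M n k a) ∧
      eval (fun i : Fin n => ((AA M (i + 1) (v (Sum.inl (Sum.inl 0))) +
        v (Sum.inl (Sum.inl 1)) * AA M (i + 1) (v (Sum.inl (Sum.inl 2))) +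
          ∑ l, v (Sum.inr l) * v (Sum.inl (Sum.inr l)) ^ (i : ℕ) : ℕ) : F)) g ≠ 0 := by
  set ψ : MvPolynomial (Fin n) F →ₐ[F] MvPolynomial (Tau k) F :=
    aeval fun i : Fin n => XP F M k i with hψ
  have hev : ∀ (h : MvPolynomial (Fin n) F) (v : Tau k → ℕ), eval (fun a => (v a : F)) (ψ h) =
      eval (fun i : Fin n => ((AA M (i + 1) (v (Sum.inl (Sum.inl 0))) +
        v (Sum.inl (Sum.inl 1)) * AA M (i + 1) (v (Sum.inl (Sum.inl 2))) +
          ∑ l, v (Sum.inr l) * v (Sum.inl (Sum.inr l)) ^ (i : ℕ) : ℕ) : F)) h := by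
    intro h v
    rw [hψ, aeval_def, hom_eval₂]
    have h3 : (eval (fun a => (v a : F))).comp (algebraMap F (MvPolynomial (Tau k) F)) =
        RingHom.id F := by
      refine RingHom.ext fun w => ?_
      rw [RingHom.comp_apply, algebraMap_eq, eval_C]
      rfl
    rw [h3]
    show _ = eval₂ (RingHom.id F) _ h
    congr 1
    funext i
    exact XP_eval M k i v
  have hψP : ψ (∏ j, P j) ≠ 0 := by
    rw [map_prod]
    refine Finset.prod_ne_zero_iff.2 fun j _ h0 => ?_
    obtain ⟨v, hv⟩ := hP j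
    apply hv
    rw [← hev, h0, map_zero]
  have hψg : ψ g ≠ 0 := by
    intro h0
    obtain ⟨g', hg'⟩ := hg
    exact hψP (by rw [hg', map_mul, h0, zero_mul])
  obtain ⟨v, hv, hv'⟩ := par_grid (ψ g) hψg (fun a => D * bd M n k a) fun a =>
    (par_degreeOf (fun i : Fin n => XP F M k i) a _
      (fun i : Fin n => XP_degree M n k i (Nat.le_of_lt i.2) a) g).trans
      (Nat.mul_le_mul_right _ hD)
  exact ⟨v, hv, by rwa [hev] at hv'⟩

end Pool.Agent.SPH
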