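import Pool.Agent.SPE.Defs

/-!
Project SPH (MP_e2be99_lc): explicit hitting sets of polynomial size for the border of arbitrary
polynomials in terms of bounded transcendence degree.  Paper proof: `/team-store/pit7_H.md`.
-/

set_option autoImplicit false

namespace Pool.Agent.SPH

open Pool.Agent.SPE

variable {σ : Type*} {K : Type*} [Field K]

/-- The coefficients of `z^m`, `m ≤ μ`, lie in `V`. -/
def Sm (μ : ℕ) (V : Submodule K (Y σ K)) (ξ : PowerSeries (Y σ K)) : Prop :=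
  ∀ m ≤ μ, PowerSeries.coeff m ξ ∈ V

/-- The polynomial `U = w * ∏ g_a + H * ∑ q_a ∂_i g_a ∏_{b ≠ a} g_b`: if `H * ∂_i Q = Q * w` then
`∂_i (Q * ∏ g_a^(q_a)) * (H * ∏ g_a) = U * (Q * ∏ g_a^(q_a))`. -/
noncomputable def UU {m : ℕ} (H w : MvPolynomial σ K) (g : Fin m → MvPolynomial σ K) (q : Fin m → ℕ)
    (i : σ) : MvPolynomial σ K :=
  w * ∏ a, g a +
    H * ∑ a, q a • (MvPolynomial.pderiv i (g a) * ∏ b ∈ Finset.univ.erase a, g b)

variable [Fintype σ]

/-- A term: `T = ∏ h_a^(b_a) * ∏ p_i(l_i1, ..., l_ic)^(q_i)`: any number of `h_a`, each in a finite-dimensional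
space `V_a` closed under partial derivatives, the product of the dimensions of the `V_a` at most `s`; at most
`d` factors `p_i(l_i1, ..., l_ic)`, `l_ij` affine forms, `p_i` of degree at most `d`; all exponents `≥ 1`;
`∏ h_a * ∏ p_i(..)` of total degree at most `d`. -/
def Term (c s d : ℕ) (T : MvPolynomial σ K) : Prop :=
  ∃ (r : ℕ) (h : Fin r → MvPolynomial σ K) (V : Fin r → Submodule K (MvPolynomial σ K))
    (b : Fin r → ℕ) (m : ℕ) (p : Fin m → MvPolynomial (Fin c) K) (e : Fin m → Fin c → K)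
    (l : Fin m → Fin c → σ → K) (q : Fin m → ℕ), m ≤ d ∧
    (∀ a, h a ∈ V a ∧ Closed (V a) ∧ FiniteDimensional K (V a) ∧ 1 ≤ b a) ∧
    ∏ a, Module.finrank K (V a) ≤ s ∧ (∀ i, (p i).totalDegree ≤ d) ∧ (∀ i, 1 ≤ q i) ∧
    ((∏ a, h a) * ∏ i, junta (p i) (e i) (l i)).totalDegree ≤ d ∧
    T = (∏ a, h a ^ b a) * ∏ i, junta (p i) (e i) (l i) ^ q i

omit [Fintype σ] in
/-- The dimension bound. -/
def N0 (k c s d : ℕ) : ℕ := (s * (d + 1) * ((d + 1) * (k * d + 1) ^ c)) ^ k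

/-- The order bound. -/
def M0 (n k c s d : ℕ) : ℕ := (n + 1) * N0 k c s d ^ 2

end Pool.Agent.SPH
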