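import Mathlib

/-!
# SPH: choice of the directions and grid points
-/

set_option autoImplicit false

namespace Pool.Agent.SPH

open MvPolynomial

variable {κ : Type*} [Field κ] [CharZero κ] {n r : ℕ}

private theorem dir_grid (F : MvPolynomial (Fin r) κ) (hF : F ≠ 0) (D : ℕ) (hD : ∀ i, F.degreeOf i ≤ D) :
    ∃ y : Fin r → ℕ, (∀ l, y l ≤ D) ∧ eval (fun l => (y l : κ)) F ≠ 0 := by
  classical
  by_contra hcon
  push Not at hcon
  apply hF
  refine eq_zero_of_eval_zero_at_prod_finset F (fun _ => (Finset.range (D + 1)).image (fun j : ℕ => (j : κ))) ?_ ?_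
  · intro i
    rw [Finset.card_image_of_injective _ Nat.cast_injective, Finset.card_range]
    exact Nat.lt_succ_of_le (hD i)
  · intro x hx
    have hex : ∀ i, ∃ j : ℕ, j ≤ D ∧ (j : κ) = x i := by
      intro i
      obtain ⟨j, hj, hj'⟩ := Finset.mem_image.1 (hx i)
      exact ⟨j, Nat.lt_succ_iff.1 (Finset.mem_range.1 hj), hj'⟩
    choose y hy hy' using hex
    have h1 := hcon y hy
    have h2 : (fun l => (y l : κ)) = x := funext hy'
    rwa [h2] at h1

theorem exists_dir (a : (Fin r → Fin n) → κ) (ha : ∃ ι, a ι ≠ 0) :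
    ∃ y : Fin r → ℕ, (∀ l, y l ≤ n) ∧
      ∑ ι : Fin r → Fin n, (∏ l, (y l : κ) ^ (ι l : ℕ)) * a ι ≠ 0 := by
  classical
  obtain ⟨ι0, h0⟩ := ha
  obtain ⟨m, hm⟩ : ∃ m : (Fin r → Fin n) → (Fin r →₀ ℕ), ∀ ι l, m ι l = (ι l : ℕ) :=
    ⟨fun ι => Finsupp.equivFunOnFinite.symm fun l => (ι l : ℕ), fun ι l => rfl⟩
  have hinj : ∀ ι ι', m ι = m ι' → ι = ι' := by
    intro ι ι' h
    funext l
    refine Fin.ext ?_
    rw [← hm, ← hm, h]
  obtain ⟨F, hF⟩ : ∃ F : MvPolynomial (Fin r) κ, F = ∑ ι, monomial (m ι) (a ι) := ⟨_, rfl⟩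
  have hF0 : F ≠ 0 := by
    intro h
    apply h0
    have h1 : coeff (m ι0) F = a ι0 := by
      rw [hF, coeff_sum, Finset.sum_eq_single ι0]
      · rw [coeff_monomial, if_pos rfl]
      · intro ι _ hne
        rw [coeff_monomial, if_neg fun h2 => hne (hinj _ _ h2)]
      · intro h2
        exact absurd (Finset.mem_univ _) h2
    rw [← h1, h, coeff_zero]
  have hdeg : ∀ i, F.degreeOf i ≤ n := by
    intro i
    rw [hF]
    refine (degreeOf_sum_le i Finset.univ _).trans (Finset.sup_le fun ι _ => ?_)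
    by_cases h1 : a ι = 0
    · rw [h1, monomial_zero, degreeOf_zero]
      exact Nat.zero_le n
    · rw [degreeOf_monomial_eq _ _ h1, hm]
      exact (ι i).2.le
  obtain ⟨y, hy, hy'⟩ := dir_grid F hF0 n hdeg
  refine ⟨y, hy, ?_⟩
  have h1 : eval (fun l => (y l : κ)) F = ∑ ι : Fin r → Fin n, (∏ l, (y l : κ) ^ (ι l : ℕ)) * a ι := by
    rw [hF, map_sum]
    refine Finset.sum_congr rfl fun ι _ => ?_
    rw [eval_monomial, Finsupp.prod_fintype _ _ (fun i => pow_zero _), mul_comm]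
    simp only [hm]
  rwa [h1] at hy'

theorem exists_grid (F : MvPolynomial (Fin r) κ) (hF : F ≠ 0) (D : ℕ) (hD : F.totalDegree ≤ D) :
    ∃ y : Fin r → ℕ, (∀ l, y l ≤ D) ∧ eval (fun l => (y l : κ)) F ≠ 0 :=
  dir_grid F hF D fun i => (degreeOf_le_totalDegree F i).trans hD

end Pool.Agent.SPH
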