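import Pool.Agent.SPE.Last

/-!
# SPH: from a coefficient in a small space to a point
-/

set_option autoImplicit false

namespace Pool.Agent.SPH

open Pool.Agent.SPE

/- PLAN. `SPD.order_space` (with `finrank ≤ N`) for the coefficient and `SPE.last_step`. -/
theorem hit_coeff {κ : Type*} [Field κ] [CharZero κ] (n μ N M : ℕ) (α : Fin n → ℕ)
    (F : MvPolynomial (Fin n) κ) (hd : F.totalDegree ≤ μ) (V : Submodule κ (Y (Fin n) κ))
    (hV : Closed V) (hfd : FiniteDimensional κ V) (hN : Module.finrank κ V ≤ N) (m : ℕ)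
    (hm : (PhiY α F).coeff m ≠ 0) (hmV : (PhiY α F).coeff m ∈ V)
    (hM : (N - 1) + ∑ k ∈ Finset.range N, k * (n - 1) ≤ M) :
    ∃ z t : ℕ, z ≤ μ ∧ t ≤ μ * M ∧
      MvPolynomial.eval (fun i : Fin n => ((α i + z * AA M (i + 1) t : ℕ) : κ)) F ≠ 0 := by
  classical
  have := hfd
  refine last_step n μ M α F hd m ?_
  have hi : ∀ i : Fin n, (((i : ℕ) + 1 : ℕ) : κ) ≠ 0 := fun i =>
    Nat.cast_ne_zero.2 (Nat.succ_ne_zero (i : ℕ))
  have hi2 : ∀ i : Fin n, ((M.factorial * ((i : ℕ) + 1) : ℕ) : κ) ≠ 0 := fun i =>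
    Nat.cast_ne_zero.2 (Nat.mul_ne_zero (Nat.factorial_ne_zero _) (Nat.succ_ne_zero (i : ℕ)))
  refine SPD.order_space (fun i : Fin n => ((M.factorial * ((i : ℕ) + 1) : ℕ) : κ))
    (fun i : Fin n => (((i : ℕ) + 1 : ℕ) : κ)) hi2 hi ?_ V hV _ hmV hm M ?_
  · intro i j hij
    have h : (i : ℕ) + 1 = (j : ℕ) + 1 := Nat.cast_injective (R := κ) hij
    exact Fin.ext (by omega)
  · rw [Fintype.card_fin]
    refine le_trans (Nat.add_le_add (Nat.sub_le_sub_right hN 1) ?_) hM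
    exact Finset.sum_le_sum_of_subset (Finset.range_subset_range.2 hN)

end Pool.Agent.SPH
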