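import Pool.Agent.SPH.Kh

/-!
# SPH: determinants
-/

set_option autoImplicit false

namespace Pool.Agent.SPH

open Pool.Agent.SPE

variable {σ : Type*} [Fintype σ] {K : Type*} [Field K] {c : ℕ}

theorem hk_det (α : σ → ℕ) (μ s d r : ℕ) (m : Fin r → ℕ) (hm : ∀ j, m j ≤ d)
    (V : Fin r → Submodule K (MvPolynomial σ K)) (hV : ∀ j, Closed (V j))
    (hfd : ∀ j, FiniteDimensional K (V j)) (hs : ∀ j, Module.finrank K (V j) ≤ s)
    (hd : ∀ j, ∀ v ∈ V j, v.totalDegree ≤ d)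
    (h : Fin r → MvPolynomial σ K) (hh : ∀ j, h j ∈ V j) (w : Fin r → σ → MvPolynomial σ K)
    (hw : ∀ j i, w j i ∈ V j)
    (p : ∀ j, Fin (m j) → MvPolynomial (Fin c) K) (e : ∀ j, Fin (m j) → Fin c → K)
    (l : ∀ j, Fin (m j) → Fin c → σ → K) (q : ∀ j, Fin (m j) → ℕ)
    (h0 : ∀ j i, MvPolynomial.eval (fun i => (α i : K)) (junta (p j i) (e j i) (l j i)) ≠ 0) :
    ∃ W : Submodule K (Y σ K), Closed W ∧ FiniteDimensional K W ∧
      Module.finrank K W ≤ (s * (d + 1) * ((d + 1) * (μ + 1) ^ c)) ^ r ∧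
      ∀ ι : Fin r → σ, ∃ ξ : PowerSeries (Y σ K), Sm μ W ξ ∧
        (PhiY α (Matrix.of fun l' j : Fin r =>
          UU (h j) (w j (ι l')) (fun a => junta (p j a) (e j a) (l j a)) (q j) (ι l')).det :
          PowerSeries (Y σ K)) =
        (PhiY α (∏ j, ∏ a, junta (p j a) (e j a) (l j a)) : PowerSeries (Y σ K)) * ξ := by
  choose W E hW hWfd hWd hWE using fun j => hk_one α μ s d (m j) (hm j) (V j) (hV j) (hfd j)
    (hs j) (hd j) (h j) (hh j) (w j) (hw j) (p j) (e j) (l j) (q j) (h0 j)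
  have hfin := finrank_prod W hWfd _ hWd
  refine ⟨∏ j, W j, Closed_prod _ _ fun j _ => hW j, hfin.1, hfin.2, fun ι =>
    ⟨(Matrix.of fun l' j : Fin r => E j (ι l')).det, ?_, ?_⟩⟩
  · exact Sm_det W _ fun l' j => (hWE j (ι l')).1
  · set φ : MvPolynomial σ K →+* PowerSeries (Y σ K) :=
      (Polynomial.coeToPowerSeries.ringHom (R := Y σ K)).comp
        (PhiY α : MvPolynomial σ K →ₐ[K] Polynomial (Y σ K)).toRingHom
      with hφ
    have hφ' : ∀ w : MvPolynomial σ K, (PhiY α w : PowerSeries (Y σ K)) = φ w := fun w => rfl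
    rw [hφ', hφ', RingHom.map_det, map_prod]
    have h1 : (φ.mapMatrix (Matrix.of fun l' j : Fin r =>
          UU (h j) (w j (ι l')) (fun a => junta (p j a) (e j a) (l j a)) (q j) (ι l'))) =
        Matrix.of fun l' j : Fin r => φ (∏ a, junta (p j a) (e j a) (l j a)) *
          (Matrix.of fun l' j : Fin r => E j (ι l')) l' j := by
      ext1 l' j
      simp only [RingHom.mapMatrix_apply, Matrix.map_apply, Matrix.of_apply]
      rw [← hφ', (hWE j (ι l')).2, hφ', mul_comm]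
    rw [h1, Matrix.det_mul_row]

end Pool.Agent.SPH
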