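import Pool.Agent.SPH.Lamh
import Pool.Agent.SPH.UUl
import Pool.Agent.SPE.Hsp
import Pool.Agent.SPE.Fr

/-!
# SPH: the Jacobian of the terms over the field `K`
-/

set_option autoImplicit false

namespace Pool.Agent.SPH

open Pool.Agent.SPE

variable {σ : Type*} [Fintype σ] {K : Type*} [Field K] {c : ℕ}

omit [Fintype σ] in
private theorem sm_of_small (α : σ → ℕ) (μ : ℕ) (H : Submodule K (Y σ K)) (w : MvPolynomial σ K)
    (h : Small μ 0 H (PhiS α w)) : Sm μ H (PhiY α w : PowerSeries (Y σ K)) := by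
  intro m hm
  have h1 := (h m hm).2 0
  have h2 : PowerSeries.coeff m (PhiS α w) =
      Polynomial.C (PowerSeries.coeff m (PhiY α w : PowerSeries (Y σ K))) := by
    show PowerSeries.coeff m (PowerSeries.map (Polynomial.C : Y σ K →+* B σ K) _) = _
    rw [PowerSeries.coeff_map]
  rw [h2, Polynomial.coeff_C_zero] at h1
  exact h1

/- PLAN. `SPE.hspace` gives `H` (its `Small μ 0 H (PhiS α h)` says that all `z`-coefficients of
`PhiY α h`, `h ∈ V`, lie in `H`: coefficient `0` in `t`); `hlam_prod` gives `U`, `lam`.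
`W = H * U`, `E i = PhiY (w i) + PhiY h * lam i`. -/
theorem hk_one (α : σ → ℕ) (μ s d m : ℕ) (hm : m ≤ d)
    (V : Submodule K (MvPolynomial σ K)) (hV : Closed V)
    (hfd : FiniteDimensional K V) (hs : Module.finrank K V ≤ s) (hd : ∀ v ∈ V, v.totalDegree ≤ d)
    (h : MvPolynomial σ K) (hh : h ∈ V) (w : σ → MvPolynomial σ K) (hw : ∀ i, w i ∈ V)
    (p : Fin m → MvPolynomial (Fin c) K) (e : Fin m → Fin c → K) (l : Fin m → Fin c → σ → K)
    (q : Fin m → ℕ)
    (h0 : ∀ i, MvPolynomial.eval (fun i => (α i : K)) (junta (p i) (e i) (l i)) ≠ 0) :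
    ∃ (W : Submodule K (Y σ K)) (E : σ → PowerSeries (Y σ K)), Closed W ∧ FiniteDimensional K W ∧
      Module.finrank K W ≤ s * (d + 1) * ((d + 1) * (μ + 1) ^ c) ∧
      ∀ i, Sm μ W (E i) ∧
        (PhiY α (UU h (w i) (fun a => junta (p a) (e a) (l a)) q i) : PowerSeries (Y σ K)) =
          E i * (PhiY α (∏ a, junta (p a) (e a) (l a)) : PowerSeries (Y σ K)) := by
  obtain ⟨H, hHc, hHf, hHr, hH⟩ := hspace α s d V hV hfd hs hd
  obtain ⟨U, lam, hUc, h1U, hUf, hUr, hlam⟩ := hlam_prod α μ d m hm p e l q h0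
  obtain ⟨hWf, hWr⟩ := finrank_mul H U hHf hUf
  have hHW : H ≤ H * U := by
    intro x hx
    have h1 := Submodule.mul_mem_mul hx (h1U (Submodule.one_le.1 le_rfl))
    rw [mul_one] at h1
    exact h1
  refine ⟨H * U, fun i => (PhiY α (w i) : PowerSeries (Y σ K)) +
    (PhiY α h : PowerSeries (Y σ K)) * lam i, Closed_mul hHc hUc, hWf,
    hWr.trans (Nat.mul_le_mul hHr hUr), fun i => ⟨?_, ?_⟩⟩
  · refine Sm_add (Sm_mono hHW (sm_of_small α μ H _ (hH _ (hw i) μ))) ?_
    exact Sm_mul (sm_of_small α μ H _ (hH _ hh μ)) (hlam i).1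
  · have h2 := (hlam i).2
    unfold UU
    rw [map_add, map_mul, map_mul, Polynomial.coe_add, Polynomial.coe_mul, Polynomial.coe_mul, h2]
    ring

end Pool.Agent.SPH
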