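import Pool.Agent.SPH.Smc
import Pool.Agent.SPE.Gr

/-!
# SPH: logarithmic partial derivatives of products of juntas
-/

set_option autoImplicit false

namespace Pool.Agent.SPH

open Pool.Agent.SPE

variable {σ : Type*} [Fintype σ] {K : Type*} [Field K] {c : ℕ}

private theorem pderiv_aff' (e : K) (l : σ → K) (i : σ) :
    MvPolynomial.pderiv i (aff e l) = MvPolynomial.C (l i) := by
  classical
  rw [aff, map_add, MvPolynomial.pderiv_C, zero_add, map_sum]
  rw [Finset.sum_eq_single i]
  · rw [MvPolynomial.pderiv_C_mul, MvPolynomial.pderiv_X_self, mul_one]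
  · intro j _ hj
    rw [MvPolynomial.pderiv_C_mul, MvPolynomial.pderiv_X_of_ne hj, mul_zero]
  · intro h
    exact absurd (Finset.mem_univ i) h

private theorem pderiv_junta (e : Fin c → K) (l : Fin c → σ → K) (i : σ)
    (p : MvPolynomial (Fin c) K) :
    MvPolynomial.pderiv i (junta p e l) =
      junta (∑ b, MvPolynomial.C (l b i) * MvPolynomial.pderiv b p) e l := by
  classical
  unfold junta
  induction p using MvPolynomial.induction_on with
  | C a =>
    rw [MvPolynomial.aeval_C, MvPolynomial.algebraMap_eq, MvPolynomial.pderiv_C]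
    rw [Finset.sum_eq_zero (fun b _ => by rw [MvPolynomial.pderiv_C, mul_zero]), map_zero]
  | add p q hp hq =>
    rw [map_add, map_add, hp, hq, ← map_add, ← Finset.sum_add_distrib]
    congr 1
    refine Finset.sum_congr rfl fun b _ => ?_
    rw [map_add, mul_add]
  | mul_X p j hp =>
    rw [map_mul, MvPolynomial.pderiv_mul, hp, MvPolynomial.aeval_X, pderiv_aff']
    rw [show (∑ b, MvPolynomial.C (l b i) * MvPolynomial.pderiv b (p * MvPolynomial.X j)) =
      (∑ b, MvPolynomial.C (l b i) * MvPolynomial.pderiv b p) * MvPolynomial.X j +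
        MvPolynomial.C (l j i) * p by
        rw [Finset.sum_mul]
        rw [show MvPolynomial.C (l j i) * p = ∑ b, MvPolynomial.C (l b i) *
          (p * MvPolynomial.pderiv b (MvPolynomial.X j : MvPolynomial (Fin c) K)) by
            rw [Finset.sum_eq_single j]
            · rw [MvPolynomial.pderiv_X_self, mul_one]
            · intro b _ hb
              rw [MvPolynomial.pderiv_X_of_ne (Ne.symm hb), mul_zero, mul_zero]
            · intro h
              exact absurd (Finset.mem_univ j) h]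
        rw [← Finset.sum_add_distrib]
        refine Finset.sum_congr rfl fun b _ => ?_
        rw [MvPolynomial.pderiv_mul]
        ring]
    rw [map_add, map_mul, map_mul, MvPolynomial.aeval_X, MvPolynomial.aeval_C,
      MvPolynomial.algebraMap_eq]
    ring

/-- `PhiY` as a ring hom to power series. -/
private noncomputable def FF (α : σ → ℕ) : MvPolynomial σ K →+* PowerSeries (Y σ K) :=
  (Polynomial.coeToPowerSeries.ringHom (R := Y σ K)).comp (PhiY (R := K) α).toRingHom

omit [Fintype σ] in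
private theorem FF_apply (α : σ → ℕ) (w : MvPolynomial σ K) :
    FF α w = (PhiY α w : PowerSeries (Y σ K)) := rfl

omit [Fintype σ] in
private theorem exV (m D : ℕ) (W : Fin m → Submodule K (Y σ K)) (h1 : ∀ a, Closed (W a))
    (h2 : ∀ a, FiniteDimensional K (W a)) (h3 : ∀ a, Module.finrank K (W a) ≤ D) :
    ∃ V : Submodule K (Y σ K), Closed V ∧ 1 ≤ V ∧ FiniteDimensional K V ∧
      Module.finrank K V ≤ 1 + m * D ∧ ∀ a, W a ≤ V := by
  induction m with
  | zero =>
    refine ⟨1, Closed_one, le_refl _, ?_, ?_, fun a => a.elim0⟩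
    · rw [Submodule.one_eq_span]
      infer_instance
    · rw [Submodule.one_eq_span]
      refine (finrank_span_le_card ({1} : Set (Y σ K))).trans ?_
      simp
  | succ m ih =>
    obtain ⟨V, g1, g2, g3, g4, g5⟩ := ih (fun a => W a.castSucc) (fun a => h1 _) (fun a => h2 _)
      (fun a => h3 _)
    have hf := h2 (Fin.last m)
    have hd := h3 (Fin.last m)
    refine ⟨V ⊔ W (Fin.last m), Closed_sup g1 (h1 _), g2.trans le_sup_left, inferInstance, ?_, ?_⟩
    · refine (Submodule.finrank_add_le_finrank_add_finrank V (W (Fin.last m))).trans ?_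
      rw [add_mul, one_mul]
      omega
    · intro a
      refine Fin.lastCases ?_ (fun a => ?_) a
      · exact le_sup_right
      · exact (g5 a).trans le_sup_left

/- Chain rule, then `Gr_junta` and `Gr_inv`. -/
theorem hlam_one (α : σ → ℕ) (μ : ℕ) (p : MvPolynomial (Fin c) K) (e : Fin c → K)
    (l : Fin c → σ → K) (h0 : MvPolynomial.eval (fun i => (α i : K)) (junta p e l) ≠ 0) :
    ∃ lam : σ → PowerSeries (Y σ K), ∀ i, Sm μ (Ap l μ) (lam i) ∧
      (PhiY α (MvPolynomial.pderiv i (junta p e l)) : PowerSeries (Y σ K)) =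
        lam i * (PhiY α (junta p e l) : PowerSeries (Y σ K)) := by
  have hu := Gr_junta α p e l
  have hc : PowerSeries.constantCoeff (PhiY α (junta p e l) : PowerSeries (Y σ K)) =
      MvPolynomial.C (MvPolynomial.eval (fun i => (α i : K)) (junta p e l)) := by
    rw [← PowerSeries.coeff_zero_eq_constantCoeff_apply, Polynomial.coeff_coe, coeff_zero_PhiY]
  obtain ⟨v, hv, hvu⟩ := Gr_inv l hu _ h0 hc
  refine ⟨fun i => (PhiY α (MvPolynomial.pderiv i (junta p e l)) : PowerSeries (Y σ K)) * v,
    fun i => ⟨?_, ?_⟩⟩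
  · intro m hm
    refine Ap_mono l hm (Gr_mul l ?_ hv m)
    rw [pderiv_junta]
    exact Gr_junta α _ e l
  · rw [mul_assoc, hvu, mul_one]

/- `lam i = ∑ a, q a • lam_a i`. -/
theorem hlam_prod (α : σ → ℕ) (μ d m : ℕ) (hm : m ≤ d) (p : Fin m → MvPolynomial (Fin c) K)
    (e : Fin m → Fin c → K) (l : Fin m → Fin c → σ → K) (q : Fin m → ℕ)
    (h0 : ∀ i, MvPolynomial.eval (fun i => (α i : K)) (junta (p i) (e i) (l i)) ≠ 0) :
    ∃ (V : Submodule K (Y σ K)) (lam : σ → PowerSeries (Y σ K)), Closed V ∧ 1 ≤ V ∧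
      FiniteDimensional K V ∧ Module.finrank K V ≤ (d + 1) * (μ + 1) ^ c ∧
      ∀ i, Sm μ V (lam i) ∧
      (PhiY α (∑ a, q a • (MvPolynomial.pderiv i (junta (p a) (e a) (l a)) *
        ∏ b ∈ Finset.univ.erase a, junta (p b) (e b) (l b))) : PowerSeries (Y σ K)) =
        lam i * (PhiY α (∏ a, junta (p a) (e a) (l a)) : PowerSeries (Y σ K)) := by
  have hex : ∀ a, ∃ lam : σ → PowerSeries (Y σ K), ∀ i, Sm μ (Ap (l a) μ) (lam i) ∧
      (PhiY α (MvPolynomial.pderiv i (junta (p a) (e a) (l a))) : PowerSeries (Y σ K)) =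
        lam i * (PhiY α (junta (p a) (e a) (l a)) : PowerSeries (Y σ K)) :=
    fun a => hlam_one α μ (p a) (e a) (l a) (h0 a)
  choose lam hlam using hex
  obtain ⟨V, g1, g2, g3, g4, g5⟩ := exV m ((μ + 1) ^ c) (fun a => Ap (l a) μ)
    (fun a => Ap_closed _ _) (fun a => (Ap_finrank (l a) μ).1) (fun a => (Ap_finrank (l a) μ).2)
  refine ⟨V, fun i => ∑ a, q a • lam a i, g1, g2, g3, g4.trans ?_, fun i => ⟨?_, ?_⟩⟩
  · have h7 : 1 ≤ (μ + 1) ^ c := Nat.one_le_pow _ _ (Nat.succ_pos μ)
    have h8 : m * (μ + 1) ^ c ≤ d * (μ + 1) ^ c := Nat.mul_le_mul_right _ hm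
    rw [add_mul, one_mul]
    omega
  · exact Sm_sum _ _ fun a _ => Sm_nsmul (q a) (Sm_mono (g5 a) (hlam a i).1)
  · rw [← FF_apply, ← FF_apply, map_sum, map_prod, Finset.sum_mul]
    refine Finset.sum_congr rfl fun a _ => ?_
    rw [map_nsmul, map_mul, map_prod, FF_apply, (hlam a i).2, ← FF_apply, mul_assoc,
      Finset.mul_prod_erase Finset.univ (fun b => FF α (junta (p b) (e b) (l b)))
        (Finset.mem_univ a), smul_mul_assoc]

end Pool.Agent.SPH
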