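import Pool.Agent.SPH.Defs

/-!
# SPH: the class `Sm`
-/

set_option autoImplicit false

namespace Pool.Agent.SPH

open Pool.Agent.SPE

variable {σ : Type*} {K : Type*} [Field K]

theorem Sm_mono {μ : ℕ} {V V' : Submodule K (Y σ K)} (hV : V ≤ V') {x : PowerSeries (Y σ K)}
    (hx : Sm μ V x) : Sm μ V' x := fun m hm => hV (hx m hm)

theorem Sm_add {μ : ℕ} {V : Submodule K (Y σ K)} {x y : PowerSeries (Y σ K)}
    (hx : Sm μ V x) (hy : Sm μ V y) : Sm μ V (x + y) := by
  intro m hm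
  rw [map_add]
  exact V.add_mem (hx m hm) (hy m hm)

theorem Sm_nsmul {μ : ℕ} {V : Submodule K (Y σ K)} {x : PowerSeries (Y σ K)} (q : ℕ)
    (hx : Sm μ V x) : Sm μ V (q • x) := by
  intro m hm
  rw [map_nsmul]
  exact nsmul_mem (hx m hm) q

theorem Sm_sum {μ : ℕ} {V : Submodule K (Y σ K)} {ι : Type*} (s : Finset ι)
    (x : ι → PowerSeries (Y σ K)) (hx : ∀ i ∈ s, Sm μ V (x i)) : Sm μ V (∑ i ∈ s, x i) := by
  intro m hm
  rw [map_sum]
  exact Submodule.sum_mem _ fun i hi => hx i hi m hm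

/- `PowerSeries.coeff_mul`, `Submodule.mul_mem_mul`. -/
theorem Sm_mul {μ : ℕ} {V V' : Submodule K (Y σ K)} {x y : PowerSeries (Y σ K)}
    (hx : Sm μ V x) (hy : Sm μ V' y) : Sm μ (V * V') (x * y) := by
  intro m hm
  rw [PowerSeries.coeff_mul]
  refine Submodule.sum_mem _ fun p hp => ?_
  have h := Finset.HasAntidiagonal.mem_antidiagonal.1 hp
  exact Submodule.mul_mem_mul (hx p.1 (by omega)) (hy p.2 (by omega))

theorem Sm_prod {μ : ℕ} {ι : Type*} (s : Finset ι) (V : ι → Submodule K (Y σ K))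
    (x : ι → PowerSeries (Y σ K)) (hx : ∀ i ∈ s, Sm μ (V i) (x i)) :
    Sm μ (∏ i ∈ s, V i) (∏ i ∈ s, x i) := by
  classical
  induction s using Finset.induction_on with
  | empty =>
    rw [Finset.prod_empty, Finset.prod_empty]
    intro m _
    rw [PowerSeries.coeff_one]
    split_ifs
    · exact Submodule.one_le.1 le_rfl
    · exact Submodule.zero_mem _
  | insert i s hi ih =>
    rw [Finset.prod_insert hi, Finset.prod_insert hi]
    exact Sm_mul (hx i (Finset.mem_insert_self i s))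
      (ih fun j hj => hx j (Finset.mem_insert_of_mem hj))

private theorem Sm_zsmul {μ : ℕ} {V : Submodule K (Y σ K)} {x : PowerSeries (Y σ K)} (q : ℤ)
    (hx : Sm μ V x) : Sm μ V (q • x) := by
  intro m hm
  rw [map_zsmul]
  exact zsmul_mem (hx m hm) q

/- `Matrix.det_apply`, as `SPE.Small_det`. -/
theorem Sm_det {μ r : ℕ} (V : Fin r → Submodule K (Y σ K))
    (x : Matrix (Fin r) (Fin r) (PowerSeries (Y σ K))) (hx : ∀ l j, Sm μ (V j) (x l j)) :
    Sm μ (∏ j, V j) x.det := by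
  rw [Matrix.det_apply]
  refine Sm_sum _ _ fun τ _ => ?_
  rw [Units.smul_def]
  exact Sm_zsmul _ (Sm_prod _ _ _ fun j _ => hx (τ j) j)

end Pool.Agent.SPH
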