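import Pool.Agent.SPE.Resid
import Pool.Agent.SPE.PhC
import Pool.Agent.SPE.Gr
import Pool.Agent.SPH.Smc

/-!
# SPH: the lowest coefficient of the residue of a Jacobian
-/

set_option autoImplicit false

namespace Pool.Agent.SPH

open Pool.Agent.SPE

private theorem low_C {σ R : Type*} [CommRing R] (α : σ → ℕ) (a : R) :
    PhiY α (MvPolynomial.C a : MvPolynomial σ R) = Polynomial.C (MvPolynomial.C a) := by
  unfold PhiY
  rw [MvPolynomial.aeval_C]
  rfl

private theorem low_X {σ R : Type*} [CommRing R] (α : σ → ℕ) (i : σ) :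
    PhiY α (MvPolynomial.X i : MvPolynomial σ R) =
      Polynomial.C (MvPolynomial.C (α i : R)) + Polynomial.X * Polynomial.C (MvPolynomial.X i) := by
  unfold PhiY
  rw [MvPolynomial.aeval_X]

private theorem low_zero {σ R : Type*} [CommRing R] (α : σ → ℕ) (w : MvPolynomial σ R) :
    (PhiY α w).coeff 0 = MvPolynomial.C (MvPolynomial.eval (fun i => (α i : R)) w) := by
  induction w using MvPolynomial.induction_on with
  | C a => rw [low_C, Polynomial.coeff_C_zero, MvPolynomial.eval_C]
  | add p q hp hq => rw [map_add, Polynomial.coeff_add, hp, hq, map_add, map_add]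
  | mul_X p i hp =>
    rw [map_mul, Polynomial.mul_coeff_zero, hp, low_X, Polynomial.coeff_add, Polynomial.coeff_C_zero,
      Polynomial.mul_coeff_zero, Polynomial.coeff_X_zero, zero_mul,
      add_zero, map_mul, MvPolynomial.eval_X, MvPolynomial.C_mul]

private theorem low_map {σ R S : Type*} [CommRing R] [CommRing S] (f : R →+* S) (α : σ → ℕ)
    (w : MvPolynomial σ R) :
    PhiY α (MvPolynomial.map f w) = (PhiY α w).map (MvPolynomial.map f) := by
  induction w using MvPolynomial.induction_on with
  | C c => rw [MvPolynomial.map_C, low_C, low_C, Polynomial.map_C, MvPolynomial.map_C]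
  | add p q hp hq => rw [map_add, map_add, map_add, Polynomial.map_add, hp, hq]
  | mul_X p i hp =>
    rw [map_mul, map_mul, map_mul, Polynomial.map_mul, hp]
    congr 1
    rw [MvPolynomial.map_X, low_X, low_X, Polynomial.map_add, Polynomial.map_mul, Polynomial.map_C,
      Polynomial.map_C, Polynomial.map_X, MvPolynomial.map_C, MvPolynomial.map_X, map_natCast f]

private theorem low_mapS {σ R S : Type*} [CommRing R] [CommRing S] (f : R →+* S) (α : σ → ℕ)
    (w : MvPolynomial σ R) :
    PowerSeries.map (MvPolynomial.map f) (PhiY α w : PowerSeries (Y σ R)) =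
      (PhiY α (MvPolynomial.map f w) : PowerSeries (Y σ S)) := by
  rw [low_map]
  ext1 m
  rw [PowerSeries.coeff_map, Polynomial.coeff_coe, Polynomial.coeff_coe, Polynomial.coeff_map]

private theorem low_inj {σ R : Type*} [CommRing R] (α : σ → ℕ) (w : MvPolynomial σ R)
    (h : PhiY α w = 0) : w = 0 := by
  have h1 : ∀ p : MvPolynomial σ R,
      MvPolynomial.aeval (fun i => (MvPolynomial.X i - MvPolynomial.C (α i : R) : MvPolynomial σ R))
        ((PhiY α p).eval 1) = p := by
    intro p
    induction p using MvPolynomial.induction_on with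
    | C r => rw [low_C, Polynomial.eval_C, MvPolynomial.aeval_C]; rfl
    | add p q hp hq => rw [map_add, Polynomial.eval_add, map_add, hp, hq]
    | mul_X p i hp =>
      rw [map_mul, Polynomial.eval_mul, map_mul, hp, low_X, Polynomial.eval_add, Polynomial.eval_mul,
        Polynomial.eval_C, Polynomial.eval_C, Polynomial.eval_X, one_mul, map_add, MvPolynomial.aeval_X,
        MvPolynomial.aeval_C]
      congr 1
      rw [MvPolynomial.algebraMap_eq]
      ring
  rw [← h1 w, h, Polynomial.eval_zero, map_zero]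

variable {O : Type*} [CommRing O] [IsDomain O] [ValuationRing O]
  {K : Type*} [Field K] [Algebra O K] [IsFractionRing O K]

/- PLAN. As `SPE.resid_step` (Pool/Agent/SPE/Core.lean; copy and simplify: no variable `t`).
`R0` has `PhiY`-constant term `C (eval α R0)`, a unit; `G' = (PhiY α R0)⁻¹` in `PowerSeries (Y σ O)`;
`Θ = PhiY α J * G'`; over `K` it is `C (C x) * ξ`; its residue has lowest coefficient (at the trailing
degree `m0` of `PhiY α Jbar`, nonzero since `PhiY α` is injective: evaluate at `z = 1`) a nonzero constant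
times that of `PhiY α Jbar`.  `resid_space` for `W`.  `m0 ≤ totalDegree Jbar ≤ μ` (`PhiY_natDegree`). -/
theorem low_coeff {σ : Type*} (α : σ → ℕ) (μ : ℕ) (J R0 : MvPolynomial σ O)
    (hu : IsUnit (MvPolynomial.eval (fun i => (α i : O)) R0))
    (W : Submodule K (Y σ K)) (hfd : FiniteDimensional K W) (hW : Closed W)
    (ξ : PowerSeries (Y σ K)) (hξ : Sm μ W ξ) (x : K)
    (hK : (PhiY α (MvPolynomial.map (algebraMap O K) J) : PowerSeries (Y σ K)) =
      PowerSeries.C (MvPolynomial.C x) *
        ((PhiY α (MvPolynomial.map (algebraMap O K) R0) : PowerSeries (Y σ K)) * ξ))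
    (hJ : MvPolynomial.map (IsLocalRing.residue O) J ≠ 0)
    (hd : (MvPolynomial.map (IsLocalRing.residue O) J).totalDegree ≤ μ) :
    ∃ (V : Submodule (IsLocalRing.ResidueField O) (Y σ (IsLocalRing.ResidueField O))) (m0 : ℕ),
      Closed V ∧ FiniteDimensional (IsLocalRing.ResidueField O) V ∧
      Module.finrank (IsLocalRing.ResidueField O) V ≤ Module.finrank K W ∧
      (PhiY α (MvPolynomial.map (IsLocalRing.residue O) J)).coeff m0 ≠ 0 ∧
      (PhiY α (MvPolynomial.map (IsLocalRing.residue O) J)).coeff m0 ∈ V := by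
  obtain ⟨V, hV, hVfd, hVr, hVm⟩ := resid_space (O := O) W hfd hW
  obtain ⟨g0, hg0⟩ : ∃ g0 : O, g0 = MvPolynomial.eval (fun i => (α i : O)) R0 := ⟨_, rfl⟩
  rw [← hg0] at hu
  obtain ⟨g', hg'⟩ := hu.exists_right_inv
  have hc0 : PowerSeries.constantCoeff (PhiY α R0 : PowerSeries (Y σ O)) = MvPolynomial.C g0 := by
    rw [← PowerSeries.coeff_zero_eq_constantCoeff_apply, Polynomial.coeff_coe, low_zero, hg0]
  have hunit : IsUnit (PhiY α R0 : PowerSeries (Y σ O)) := by
    rw [PowerSeries.isUnit_iff_constantCoeff, hc0]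
    exact hu.map MvPolynomial.C
  obtain ⟨G', hG'⟩ := hunit.exists_right_inv
  have hG'0 : PowerSeries.constantCoeff G' = MvPolynomial.C g' := by
    have h1 := congrArg PowerSeries.constantCoeff hG'
    rw [map_mul, map_one, hc0] at h1
    have h3 : (MvPolynomial.C g' : Y σ O) * (MvPolynomial.C g0 * PowerSeries.constantCoeff G') =
        MvPolynomial.C g' := by rw [h1, mul_one]
    rw [← mul_assoc, ← map_mul, mul_comm g', hg', map_one, one_mul] at h3
    exact h3
  obtain ⟨Θ, hΘ⟩ : ∃ Θ : PowerSeries (Y σ O), Θ = (PhiY α J : PowerSeries (Y σ O)) * G' := ⟨_, rfl⟩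
  obtain ⟨m0, hm0⟩ : ∃ m0, m0 = (PhiY α (MvPolynomial.map (IsLocalRing.residue O) J)).natTrailingDegree :=
    ⟨_, rfl⟩
  have hne : PhiY α (MvPolynomial.map (IsLocalRing.residue O) J) ≠ 0 := fun h => hJ (low_inj α _ h)
  have hm0μ : m0 ≤ μ := by
    rw [hm0]
    exact (Polynomial.natTrailingDegree_le_natDegree _).trans (PhiY_natDegree α _ μ hd)
  have hcoef : (PhiY α (MvPolynomial.map (IsLocalRing.residue O) J)).coeff m0 ≠ 0 := by
    rw [hm0]
    exact Polynomial.trailingCoeff_nonzero_iff_nonzero.2 hne
  have hKΘ : PowerSeries.map (MvPolynomial.map (algebraMap O K)) Θ =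
      PowerSeries.C (MvPolynomial.C x) * ξ := by
    rw [hΘ, map_mul, low_mapS, hK, ← low_mapS]
    have h1 : PowerSeries.map (MvPolynomial.map (algebraMap O K)) (PhiY α R0 : PowerSeries (Y σ O)) *
        PowerSeries.map (MvPolynomial.map (algebraMap O K)) G' = 1 := by
      rw [← map_mul, hG', map_one]
    calc PowerSeries.C (MvPolynomial.C x) *
          (PowerSeries.map (MvPolynomial.map (algebraMap O K)) (PhiY α R0 : PowerSeries (Y σ O)) * ξ) *
          PowerSeries.map (MvPolynomial.map (algebraMap O K)) G' = PowerSeries.C (MvPolynomial.C x) * ξ *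
          (PowerSeries.map (MvPolynomial.map (algebraMap O K)) (PhiY α R0 : PowerSeries (Y σ O)) *
            PowerSeries.map (MvPolynomial.map (algebraMap O K)) G') := by ring
      _ = _ := by rw [h1, mul_one]
  have hcK : MvPolynomial.map (algebraMap O K) (PowerSeries.coeff m0 Θ) =
      MvPolynomial.C x * PowerSeries.coeff m0 ξ := by
    rw [← PowerSeries.coeff_map, hKΘ, PowerSeries.coeff_C_mul]
  have hmemK : MvPolynomial.map (algebraMap O K) (PowerSeries.coeff m0 Θ) ∈ W := by
    rw [hcK, ← MvPolynomial.smul_eq_C_mul]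
    exact W.smul_mem _ (hξ m0 hm0μ)
  have hcR : MvPolynomial.map (IsLocalRing.residue O) (PowerSeries.coeff m0 Θ) =
      MvPolynomial.C (IsLocalRing.residue O g') *
        (PhiY α (MvPolynomial.map (IsLocalRing.residue O) J)).coeff m0 := by
    rw [← PowerSeries.coeff_map, hΘ, map_mul, low_mapS, PowerSeries.coeff_mul,
      Finset.sum_eq_single (m0, 0)]
    · rw [Polynomial.coeff_coe, PowerSeries.coeff_map, mul_comm]
      congr 1
      rw [PowerSeries.coeff_zero_eq_constantCoeff_apply, hG'0, MvPolynomial.map_C]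
    · rintro ⟨i, j⟩ hij hnij
      have hij' : i + j = m0 := by simpa using hij
      have hi : i < m0 := by
        rcases Nat.lt_or_ge i m0 with h | h
        · exact h
        · exfalso
          apply hnij
          have h1 : i = m0 := by omega
          have h2 : j = 0 := by omega
          rw [h1, h2]
      show PowerSeries.coeff i _ * _ = 0
      rw [Polynomial.coeff_coe, Polynomial.coeff_eq_zero_of_lt_natTrailingDegree (hm0 ▸ hi), zero_mul]
    · intro h
      exact absurd (by simp) h
  refine ⟨V, m0, hV, hVfd, hVr, hcoef, ?_⟩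
  have h1 := hVm _ hmemK
  rw [hcR] at h1
  have h2 : (PhiY α (MvPolynomial.map (IsLocalRing.residue O) J)).coeff m0 =
      IsLocalRing.residue O g0 • (MvPolynomial.C (IsLocalRing.residue O g') *
        (PhiY α (MvPolynomial.map (IsLocalRing.residue O) J)).coeff m0) := by
    rw [MvPolynomial.smul_eq_C_mul, ← mul_assoc, ← map_mul, ← map_mul, hg', map_one, map_one, one_mul]
  rw [h2]
  exact V.smul_mem _ h1

end Pool.Agent.SPH
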