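import Pool.Agent.SPE.Nrm
import Pool.Agent.SPE.Clo
import Pool.Agent.SPE.Fr
import Pool.Agent.SPH.UUl

/-!
# SPH: normalised form of a nonzero term over a valuation ring
-/

set_option autoImplicit false

namespace Pool.Agent.SPH

open Pool.Agent.SPE

variable {σ : Type*} [Fintype σ] {O : Type*} [CommRing O] [IsDomain O] [ValuationRing O]
  {K : Type*} [Field K] [Algebra O K] [IsFractionRing O K]

omit [Fintype σ] in
private theorem pn_td_pderiv (i : σ) (v : MvPolynomial σ K) :
    (MvPolynomial.pderiv i v).totalDegree ≤ v.totalDegree := by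
  classical
  rw [MvPolynomial.totalDegree, Finset.sup_le_iff]
  intro m hm
  rw [MvPolynomial.mem_support_iff, MvPolynomial.coeff_pderiv] at hm
  have h1 : v.coeff (m + Finsupp.single i 1) ≠ 0 := fun h => hm (by rw [h, zero_mul])
  have h2 := MvPolynomial.le_totalDegree (MvPolynomial.mem_support_iff.2 h1)
  have h3 : ((m + Finsupp.single i 1).sum fun _ e => e) = (m.sum fun _ e => e) + 1 := by
    rw [Finsupp.sum_add_index' (fun _ => rfl) (fun _ _ _ => rfl), Finsupp.sum_single_index rfl]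
  omega

omit [Fintype σ] in
private theorem pn_td_map (p : MvPolynomial σ O) :
    (MvPolynomial.map (algebraMap O K) p).totalDegree = p.totalDegree := by
  unfold MvPolynomial.totalDegree
  rw [MvPolynomial.support_map_of_injective _ (IsFractionRing.injective O K)]

omit [Fintype σ] in
private theorem pn_finrank {r : ℕ} (V : Fin r → Submodule K (MvPolynomial σ K))
    (hV : ∀ a, FiniteDimensional K (V a)) :
    FiniteDimensional K (∏ a, V a : Submodule K (MvPolynomial σ K)) ∧
      Module.finrank K (∏ a, V a : Submodule K (MvPolynomial σ K)) ≤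
        ∏ a, Module.finrank K (V a) := by
  induction r with
  | zero =>
    rw [Fin.prod_univ_zero, Fin.prod_univ_zero]
    have h := finrank_prod (K := K) (A := MvPolynomial σ K) (r := 0) (fun j => j.elim0)
      (fun j => j.elim0) 0 (fun j => j.elim0)
    rw [Fin.prod_univ_zero, pow_zero] at h
    exact h
  | succ r ih =>
    obtain ⟨h1, h2⟩ := ih (fun j => V j.succ) (fun j => hV j.succ)
    obtain ⟨h3, h4⟩ := finrank_mul (V 0) (∏ j : Fin r, V j.succ) (hV 0) h1
    rw [Fin.prod_univ_succ, Fin.prod_univ_succ]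
    exact ⟨h3, h4.trans (Nat.mul_le_mul le_rfl h2)⟩

omit [Fintype σ] in
private theorem pn_mem {ι : Type*} (s : Finset ι) (V : ι → Submodule K (MvPolynomial σ K))
    (x : ι → MvPolynomial σ K) (hx : ∀ a ∈ s, x a ∈ V a) : ∏ a ∈ s, x a ∈ ∏ a ∈ s, V a := by
  classical
  induction s using Finset.induction_on with
  | empty =>
    rw [Finset.prod_empty, Finset.prod_empty]
    exact Submodule.one_le.1 le_rfl
  | insert a s ha ih =>
    rw [Finset.prod_insert ha, Finset.prod_insert ha]
    exact Submodule.mul_mem_mul (hx a (Finset.mem_insert_self a s))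
      (ih fun b hb => hx b (Finset.mem_insert_of_mem hb))

theorem term_norm (c s d : ℕ) (T : MvPolynomial σ K) (hT : Term c s d T) (hT0 : T ≠ 0) :
    ∃ (Q H : MvPolynomial σ K) (w : σ → MvPolynomial σ K) (V : Submodule K (MvPolynomial σ K))
      (m : ℕ) (p : Fin m → MvPolynomial (Fin c) K) (e : Fin m → Fin c → K)
      (l : Fin m → Fin c → σ → K) (q : Fin m → ℕ) (G : Fin m → MvPolynomial σ O),
      m ≤ d ∧ H ∈ V ∧ (∀ i, w i ∈ V) ∧ (∀ i, (w i).totalDegree ≤ H.totalDegree) ∧
      (∀ i, H * MvPolynomial.pderiv i Q = Q * w i) ∧ Closed V ∧ FiniteDimensional K V ∧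
      Module.finrank K V ≤ s ∧ 1 ≤ s ∧
      (∀ v ∈ V, v.totalDegree ≤ d) ∧ (∀ i, (p i).totalDegree ≤ d) ∧
      H * ∏ i, junta (p i) (e i) (l i) ≠ 0 ∧
      (H * ∏ i, junta (p i) (e i) (l i)).totalDegree ≤ d ∧
      T = Q * ∏ i, junta (p i) (e i) (l i) ^ q i ∧
      (∀ i, MvPolynomial.map (algebraMap O K) (G i) = junta (p i) (e i) (l i)) ∧
      (∀ i, MvPolynomial.map (IsLocalRing.residue O) (G i) ≠ 0) ∧ ∀ i, (G i).totalDegree ≤ d := by
  obtain ⟨r, h, V0, b, m, p, e, l, q, hm, hhV, hfr, hp, hq, hTd, hTe⟩ := hT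
  have hQ0 : ∏ a, h a ^ b a ≠ 0 := by
    intro h0
    exact hT0 (by rw [hTe, h0, zero_mul])
  have hh : ∀ a, h a ≠ 0 := by
    intro a h0
    refine hQ0 (Finset.prod_eq_zero (Finset.mem_univ a) ?_)
    rw [h0, zero_pow]
    exact Nat.one_le_iff_ne_zero.1 (hhV a).2.2.2
  have hH0 : ∏ a, h a ≠ 0 := Finset.prod_ne_zero_iff.2 fun a _ => hh a
  have hj : ∀ i, junta (p i) (e i) (l i) ≠ 0 := by
    intro i h
    refine hT0 ?_
    rw [hTe, Finset.prod_eq_zero (Finset.mem_univ i), mul_zero]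
    rw [h, zero_pow]
    exact Nat.one_le_iff_ne_zero.1 (hq i)
  have hR0 : (∏ a, h a) * ∏ i, junta (p i) (e i) (l i) ≠ 0 :=
    mul_ne_zero hH0 (Finset.prod_ne_zero_iff.2 fun i _ => hj i)
  have hjT : ∀ i, junta (p i) (e i) (l i) ∣ (∏ a, h a) * ∏ i, junta (p i) (e i) (l i) := by
    intro i
    exact (Finset.dvd_prod_of_mem (fun i => junta (p i) (e i) (l i)) (Finset.mem_univ i)).mul_left _
  have hhT : ∏ a, h a ∣ (∏ a, h a) * ∏ i, junta (p i) (e i) (l i) := Dvd.intro _ rfl
  have hHd : (∏ a, h a).totalDegree ≤ d :=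
    (MvPolynomial.totalDegree_le_of_dvd_of_isDomain hhT hR0).trans hTd
  choose cc G hc hG hν using fun i => normalise (O := O) (junta (p i) (e i) (l i)) (hj i)
  have hsm : ∀ i, junta (cc i • p i) (e i) (l i) = cc i • junta (p i) (e i) (l i) := by
    intro i
    unfold junta
    rw [map_smul]
  have hP' : ∏ i, cc i ≠ 0 := Finset.prod_ne_zero_iff.2 fun i _ => hc i
  have hprod : (∏ a, h a) * ∏ i, junta (cc i • p i) (e i) (l i) =
      (∏ i, cc i) • ((∏ a, h a) * ∏ i, junta (p i) (e i) (l i)) := by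
    have h1 : ∏ i, junta (cc i • p i) (e i) (l i) = (∏ i, cc i) • ∏ i, junta (p i) (e i) (l i) := by
      rw [Finset.prod_congr rfl fun i _ => hsm i, Finset.prod_smul]
    rw [h1, mul_smul_comm]
  have hVc : Closed (∏ a, V0 a) := Closed_prod _ _ fun a _ => (hhV a).2.1
  obtain ⟨hfd, hfr'⟩ := pn_finrank V0 fun a => (hhV a).2.2.1
  have hHV : ∏ a, h a ∈ ∏ a, V0 a := pn_mem _ V0 h fun a _ => (hhV a).1
  set w : σ → MvPolynomial σ K := fun i =>
    ∑ a, b a • (MvPolynomial.pderiv i (h a) * ∏ c ∈ Finset.univ.erase a, h c) with hw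
  have hwd : ∀ i, (w i).totalDegree ≤ (∏ a, h a).totalDegree := fun i =>
    sum_degree Finset.univ h b i fun a _ => hh a
  have hwV : ∀ i, w i ∈ ∏ a, V0 a := by
    intro i
    refine Submodule.sum_mem _ fun a _ => ?_
    refine Submodule.smul_of_tower_mem _ _ ?_
    have h1 := pn_mem Finset.univ V0 (Function.update h a (MvPolynomial.pderiv i (h a))) ?_
    · rw [Finset.prod_update_of_mem (Finset.mem_univ a), ← Finset.erase_eq] at h1
      exact h1
    · intro c _
      by_cases hc : c = a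
      · subst hc
        rw [Function.update_self]
        exact (hhV c).2.1 _ (hhV c).1 i
      · rw [Function.update_of_ne hc]
        exact (hhV c).1
  have hdl : ∀ i, (∏ a, h a) * MvPolynomial.pderiv i (∏ a, h a ^ b a) = (∏ a, h a ^ b a) * w i := by
    intro i
    rw [mul_comm, uul_ind (MvPolynomial.pderiv i) h b Finset.univ, mul_comm]
  refine ⟨(∏ i, (cc i)⁻¹ ^ q i) • ∏ a, h a ^ b a, ∏ a, h a, w,
    (∏ a, V0 a) ⊓ MvPolynomial.restrictTotalDegree σ K d, m,
    fun i => cc i • p i, e, l, q, G, hm, ⟨hHV, ?_⟩, fun i => ⟨hwV i, ?_⟩, hwd, ?_, ?_, ?_, ?_, ?_, ?_,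
    ?_, ?_, ?_, ?_, ?_, ?_, ?_⟩
  · rw [SetLike.mem_coe, MvPolynomial.mem_restrictTotalDegree]
    exact hHd
  · rw [SetLike.mem_coe, MvPolynomial.mem_restrictTotalDegree]
    exact (hwd i).trans hHd
  · intro i
    rw [Derivation.map_smul, mul_smul_comm, hdl, smul_mul_assoc]
  · rintro v ⟨hv1, hv2⟩ i
    refine ⟨hVc v hv1 i, ?_⟩
    rw [SetLike.mem_coe, MvPolynomial.mem_restrictTotalDegree] at hv2 ⊢
    exact (pn_td_pderiv i v).trans hv2
  · have := hfd
    exact Submodule.finiteDimensional_of_le inf_le_left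
  · have := hfd
    exact ((Submodule.finrank_mono inf_le_left).trans hfr').trans hfr
  · have := hfd
    refine le_trans (Submodule.one_le_finrank_iff.2 ?_) (hfr'.trans hfr)
    intro hb
    rw [hb, Submodule.mem_bot] at hHV
    exact hH0 hHV
  · rintro v ⟨-, hv2⟩
    exact (MvPolynomial.mem_restrictTotalDegree _ _ _).1 hv2
  · intro i
    exact (MvPolynomial.totalDegree_smul_le _ _).trans (hp i)
  · rw [hprod]
    exact smul_ne_zero hP' hR0
  · rw [hprod]
    exact (MvPolynomial.totalDegree_smul_le _ _).trans hTd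
  · have h1 : ∏ i, junta (cc i • p i) (e i) (l i) ^ q i =
        (∏ i, cc i ^ q i) • ∏ i, junta (p i) (e i) (l i) ^ q i := by
      rw [Finset.prod_congr rfl fun i _ => by rw [hsm i, smul_pow], Finset.prod_smul]
    have h2 : (∏ i, (cc i)⁻¹ ^ q i) * ∏ i, cc i ^ q i = 1 := by
      rw [← Finset.prod_mul_distrib]
      refine Finset.prod_eq_one fun i _ => ?_
      rw [← mul_pow, inv_mul_cancel₀ (hc i), one_pow]
    rw [h1, smul_mul_smul_comm, h2, one_smul]
    exact hTe
  · intro i
    rw [hG, hsm]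
  · intro i hz
    obtain ⟨ν, h1⟩ := hν i
    have h2 := congrArg (MvPolynomial.coeff ν) hz
    rw [MvPolynomial.coeff_map, h1, map_one, MvPolynomial.coeff_zero] at h2
    exact one_ne_zero h2
  · intro i
    rw [← pn_td_map (K := K), hG]
    exact ((MvPolynomial.totalDegree_smul_le _ _).trans
      (MvPolynomial.totalDegree_le_of_dvd_of_isDomain (hjT i) hR0)).trans hTd

end Pool.Agent.SPH
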