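import Pool.Agent.SPE.Main
import Pool.Agent.SPH.KDet
import Pool.Agent.SPH.Star
import Pool.Agent.SPH.Trd
import Pool.Agent.SPH.NrmF
import Pool.Agent.SPH.Pn
import Pool.Agent.SPH.Low
import Pool.Agent.SPH.Hit
import Pool.Agent.SPH.Tr
import Pool.Agent.SPH.Dir

/-!
# SPH: main theorem
-/

set_option autoImplicit false

namespace Pool.Agent.SPH

open Pool.Agent.SPE

theorem pad (n r k D : ℕ) (hr : r ≤ k) (y ζ : Fin r → ℕ) (hy : ∀ l, y l ≤ n) (hζ : ∀ l, ζ l ≤ D) :
    ∃ y' ζ' : Fin k → ℕ, (∀ l, y' l ≤ n) ∧ (∀ l, ζ' l ≤ D) ∧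
      ∀ i : ℕ, ∑ l, ζ' l * y' l ^ i = ∑ l, ζ l * y l ^ i := by
  refine ⟨fun l => if h : (l : ℕ) < r then y ⟨l, h⟩ else 0,
    fun l => if h : (l : ℕ) < r then ζ ⟨l, h⟩ else 0, ?_, ?_, ?_⟩
  · intro l
    show (if h : (l : ℕ) < r then y ⟨l, h⟩ else 0) ≤ n
    split_ifs with h
    · exact hy _
    · exact Nat.zero_le _
  · intro l
    show (if h : (l : ℕ) < r then ζ ⟨l, h⟩ else 0) ≤ D
    split_ifs with h
    · exact hζ _
    · exact Nat.zero_le _
  · intro i
    have h1 : ∀ l : Fin k, (if h : (l : ℕ) < r then ζ ⟨l, h⟩ else 0) *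
        (if h : (l : ℕ) < r then y ⟨l, h⟩ else 0) ^ i =
        (fun j : ℕ => if h : j < r then ζ ⟨j, h⟩ * y ⟨j, h⟩ ^ i else 0) (l : ℕ) := by
      intro l
      by_cases h : (l : ℕ) < r
      · simp only [h, dif_pos]
      · simp only [h, dif_neg, not_false_iff, zero_mul]
    have h2 : ∀ l : Fin r, ζ l * y l ^ i =
        (fun j : ℕ => if h : j < r then ζ ⟨j, h⟩ * y ⟨j, h⟩ ^ i else 0) (l : ℕ) := by
      intro l
      simp only [l.2, dif_pos]
    rw [Finset.sum_congr rfl fun l _ => h1 l, Finset.sum_congr rfl fun l _ => h2 l,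
      ← Finset.sum_range (fun j : ℕ => if h : j < r then ζ ⟨j, h⟩ * y ⟨j, h⟩ ^ i else 0),
      ← Finset.sum_range (fun j : ℕ => if h : j < r then ζ ⟨j, h⟩ * y ⟨j, h⟩ ^ i else 0)]
    refine (Finset.sum_subset (Finset.range_subset_range.2 hr) fun j _ hj => ?_).symm
    rw [Finset.mem_range] at hj
    rw [dif_neg hj]

/-- Restriction to an affine space in rational directions commutes with a field extension. -/
theorem map_dir {κ F : Type*} [Field κ] [Field F] (φ : κ →+* F) (n r : ℕ) (Q : Fin n → ℕ)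
    (y : Fin r → ℕ) (h : MvPolynomial (Fin n) κ) :
    MvPolynomial.map φ (MvPolynomial.aeval (fun i : Fin n => MvPolynomial.C ((Q i : ℕ) : κ) +
      ∑ l, MvPolynomial.C ((y l : κ) ^ (i : ℕ)) * (MvPolynomial.X l : MvPolynomial (Fin r) κ)) h) =
    MvPolynomial.aeval (fun i : Fin n => MvPolynomial.C ((Q i : ℕ) : F) +
      ∑ l, MvPolynomial.C ((y l : F) ^ (i : ℕ)) * (MvPolynomial.X l : MvPolynomial (Fin r) F))
      (MvPolynomial.map φ h) := by
  induction h using MvPolynomial.induction_on with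
  | C a =>
    rw [MvPolynomial.map_C, MvPolynomial.aeval_C, MvPolynomial.aeval_C,
      MvPolynomial.algebraMap_eq, MvPolynomial.algebraMap_eq, MvPolynomial.map_C]
  | add p q hp hq => rw [map_add, map_add, map_add, map_add, hp, hq]
  | mul_X p i hp =>
    rw [map_mul, map_mul, map_mul, map_mul, hp, MvPolynomial.aeval_X, MvPolynomial.map_X,
      MvPolynomial.aeval_X, map_add, map_sum, MvPolynomial.map_C, map_natCast]
    congr 2
    refine Finset.sum_congr rfl fun l _ => ?_
    rw [map_mul, MvPolynomial.map_C, MvPolynomial.map_X, map_pow, map_natCast]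

theorem det_totalDegree {σ K : Type*} [Field K] {r d : ℕ}
    (A : Matrix (Fin r) (Fin r) (MvPolynomial σ K)) (hA : ∀ l j, (A l j).totalDegree ≤ d) :
    A.det.totalDegree ≤ r * d := by
  rw [Matrix.det_apply]
  refine MvPolynomial.totalDegree_finsetSum_le fun τ _ => ?_
  refine (MvPolynomial.totalDegree_smul_le _ _).trans ?_
  refine (MvPolynomial.totalDegree_finsetProd _ _).trans ?_
  refine (Finset.sum_le_sum fun i _ => hA (τ i) i).trans ?_
  simp

section main

variable {O : Type*} [CommRing O] [IsDomain O] [ValuationRing O] {K : Type*} [Field K]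
  [Algebra O K] [IsFractionRing O K]

theorem core1 [CharZero (IsLocalRing.ResidueField O)] (n N k c s d : ℕ) (T : Fin N → MvPolynomial (Fin n) K)
    (hT : ∀ j, Term c s d (T j))
    (htr : ∀ ι : Fin (k + 1) → Fin N, ¬ AlgebraicIndependent K (fun j => T (ι j)))
    (f : MvPolynomial (Fin n) O)
    (hf : IsAlgebraic (Algebra.adjoin K (Set.range T)) (MvPolynomial.map (algebraMap O K) f))
    (hF : MvPolynomial.map (IsLocalRing.residue O) f ≠ 0) :
    ∃ (u z t r : ℕ) (y : Fin r → ℕ), u ≤ k * d * (d * M0 n k c s d) ∧ z ≤ k * d ∧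
      t ≤ k * d * M0 n k c s d ∧ r ≤ k ∧ (∀ l, y l ≤ n) ∧
      MvPolynomial.aeval (fun i : Fin n => MvPolynomial.C ((AA (M0 n k c s d) (i + 1) u +
        z * AA (M0 n k c s d) (i + 1) t : ℕ) : IsLocalRing.ResidueField O) +
        ∑ l, MvPolynomial.C ((y l : IsLocalRing.ResidueField O) ^ (i : ℕ)) *
          (MvPolynomial.X l : MvPolynomial (Fin r) (IsLocalRing.ResidueField O)))
        (MvPolynomial.map (IsLocalRing.residue O) f) ≠ 0 := by
  classical
  set κ := IsLocalRing.ResidueField O with hκ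
  have hOinj : Function.Injective (algebraMap O K) := IsFractionRing.injective O K
  haveI hOchar : CharZero O := (IsLocalRing.residue O).charZero
  haveI hKchar : CharZero K := charZero_of_injective_algebraMap hOinj
  obtain ⟨r, ι, hrk, hind, hdep⟩ := exists_trbasis (K := K) T htr _ hf
  have hT0 : ∀ j, T (ι j) ≠ 0 := fun j => hind.ne_zero j
  choose Q H w V m p e l q G hm hh hwV hwd hdl hV hVfd hVs hs1 hVd hpd hrad hradd hTeq hGeq hGr hGd
    using fun j => term_norm (O := O) c s d (T (ι j)) (hT (ι j)) (hT0 j)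
  set M := M0 n k c s d with hM
  set base := s * (d + 1) * ((d + 1) * (k * d + 1) ^ c) with hbase
  have hbase1 : r ≠ 0 → 1 ≤ base := by
    intro hr
    have hs : 1 ≤ s := hs1 ⟨0, Nat.pos_of_ne_zero hr⟩
    exact Nat.mul_pos (Nat.mul_pos hs (Nat.succ_pos _))
      (Nat.mul_pos (Nat.succ_pos _) (Nat.pow_pos (Nat.succ_pos _)))
  have hN0 : N0 k c s d = base ^ k := rfl
  have hbound : ∀ D', 1 ≤ N0 k c s d → D' ≤ N0 k c s d →
      (D' - 1) + ∑ j ∈ Finset.range D', j * (n - 1) ≤ M := by
    intro D' h1 h2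
    refine (bound_arith2 n 0 (N0 k c s d) D' h2 h1).trans (le_of_eq ?_)
    rw [hM, M0]
    ring
  have hNr : (base ^ r - 1) + ∑ j ∈ Finset.range (base ^ r), j * (n - 1) ≤ M := by
    by_cases hr : r = 0
    · rw [hr]
      simp
    · have h1 := hbase1 hr
      refine hbound _ ?_ ?_
      · rw [hN0]
        exact Nat.pow_pos h1
      · rw [hN0]
        exact Nat.pow_le_pow_right h1 hrk
  -- choice of α
  have hα : ∃ u ≤ k * d * (d * M), ∀ j i, MvPolynomial.eval
      (fun i : Fin n => ((AA M (i + 1) u : ℕ) : κ))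
      (MvPolynomial.map (IsLocalRing.residue O) (G j i)) ≠ 0 := by
    by_cases hr : r = 0
    · subst hr
      exact ⟨0, Nat.zero_le _, fun j => j.elim0⟩
    · have hcard : Fintype.card (Σ j : Fin r, Fin (m j)) ≤ k * d := by
        rw [Fintype.card_sigma]
        calc ∑ j : Fin r, Fintype.card (Fin (m j)) ≤ ∑ _j : Fin r, d :=
              Finset.sum_le_sum fun j _ => by rw [Fintype.card_fin]; exact hm j
          _ = r * d := by rw [Finset.sum_const, Finset.card_univ, Fintype.card_fin, smul_eq_mul]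
          _ ≤ k * d := Nat.mul_le_mul_right d hrk
      have hDN : (d + 1) ^ c ≤ N0 k c s d := by
        have hk1 : 1 ≤ k := (Nat.pos_of_ne_zero hr).trans_le hrk
        have h1 : (d + 1) ^ c ≤ base := by
          have hs : 1 ≤ s := hs1 ⟨0, Nat.pos_of_ne_zero hr⟩
          calc (d + 1) ^ c ≤ (k * d + 1) ^ c :=
                Nat.pow_le_pow_left (Nat.succ_le_succ (Nat.le_mul_of_pos_left d hk1)) c
            _ = 1 * (1 * (k * d + 1) ^ c) := by rw [one_mul, one_mul]
            _ ≤ base := Nat.mul_le_mul (Nat.mul_pos hs (Nat.succ_pos _))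
                (Nat.mul_le_mul_right _ (Nat.succ_pos _))
        rw [hN0]
        exact h1.trans (Nat.le_self_pow (by omega) _)
      obtain ⟨u, hu, huG⟩ := exists_alpha (κ := κ) n ((d + 1) ^ c) d M
        (Fintype.card (Σ j : Fin r, Fin (m j)))
        (fun x => MvPolynomial.map (IsLocalRing.residue O)
          (G ((Fintype.equivFin (Σ j : Fin r, Fin (m j))).symm x).1
            ((Fintype.equivFin (Σ j : Fin r, Fin (m j))).symm x).2))
        (fun x => hGr _ _) (fun x => (totalDegree_map_le' _ _).trans (hGd _ _))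
        (fun x => resid_junta c d _ _ _ (hpd _ _) _ (hGeq _ _))
        (hbound _ ((Nat.pow_pos (Nat.succ_pos d)).trans_le hDN) hDN)
      refine ⟨u, hu.trans (Nat.mul_le_mul_right _ hcard), fun j i => ?_⟩
      have := huG (Fintype.equivFin (Σ j : Fin r, Fin (m j)) ⟨j, i⟩)
      rwa [Equiv.symm_apply_apply] at this
  obtain ⟨u, hu, hαG⟩ := hα
  set α : Fin n → ℕ := fun i => AA M (i + 1) u with hα'
  have hunit : ∀ j i, IsUnit (MvPolynomial.eval (fun i => (α i : O)) (G j i)) := by
    intro j i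
    rw [← IsLocalRing.residue_ne_zero_iff_isUnit]
    have h1 : IsLocalRing.residue O (MvPolynomial.eval (fun i => (α i : O)) (G j i)) =
        MvPolynomial.eval (fun i => (α i : κ))
          (MvPolynomial.map (IsLocalRing.residue O) (G j i)) := by
      rw [MvPolynomial.map_eval]
      have h5 : (fun i => (α i : κ)) = (IsLocalRing.residue O) ∘ fun i => (α i : O) :=
        funext fun i => (map_natCast _ _).symm
      rw [h5]
    rw [h1]
    exact hαG j i
  have hαK : ∀ j i, MvPolynomial.eval (fun i => (α i : K)) (junta (p j i) (e j i) (l j i)) ≠ 0 := by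
    intro j i
    rw [← hGeq]
    have h1 : MvPolynomial.eval (fun i => (α i : K))
        (MvPolynomial.map (algebraMap O K) (G j i)) =
        algebraMap O K (MvPolynomial.eval (fun i => (α i : O)) (G j i)) := by
      rw [MvPolynomial.map_eval]
      have h5 : (fun i => (α i : K)) = (algebraMap O K) ∘ fun i => (α i : O) :=
        funext fun i => (map_natCast _ _).symm
      rw [h5]
    rw [h1]
    intro h2
    have h3 : MvPolynomial.eval (fun i => (α i : O)) (G j i) = 0 :=
      hOinj (by rw [h2, map_zero])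
    have h4 := hunit j i
    rw [h3] at h4
    exact not_isUnit_zero h4
  -- Jacobian
  set R : Fin r → MvPolynomial (Fin n) K :=
    fun j => H j * ∏ a, junta (p j a) (e j a) (l j a) with hR
  set U : Fin r → Fin n → MvPolynomial (Fin n) K :=
    fun j i => UU (H j) (w j i) (fun a => junta (p j a) (e j a) (l j a)) (q j) i with hU
  have hR0 : ∀ j, R j ≠ 0 := fun j => hrad j
  have hTU : ∀ j i, MvPolynomial.pderiv i (T (ι j)) * R j = U j i * T (ι j) := by
    intro j i
    rw [hTeq j]
    exact UU_eq _ _ _ _ _ _ (hdl j i)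
  obtain ⟨⟨ι1, hι1⟩, hstar⟩ := star' (fun j => T (ι j)) hind _ hdep R (fun j => T (ι j)) hR0 hT0 U hTU
  obtain ⟨x, JO, hx0, hJO, ι0, ν0, hν0⟩ := normalise_family (O := O)
    (fun ι' : Fin r → Fin n => (Matrix.of fun l j : Fin r => U j (ι' l)).det) ⟨ι1, hι1⟩
  set Jb : (Fin r → Fin n) → MvPolynomial (Fin n) κ :=
    fun ι' => MvPolynomial.map (IsLocalRing.residue O) (JO ι') with hJb
  have hJb0 : Jb ι0 ≠ 0 := by
    intro h1
    have h2 := congrArg (MvPolynomial.coeff ν0) h1
    rw [hJb] at h2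
    simp only [MvPolynomial.coeff_map, MvPolynomial.coeff_zero] at h2
    rw [hν0, map_one] at h2
    exact one_ne_zero h2
  have hstarO : ∀ (ι' : Fin r → Fin n) (i : Fin n), MvPolynomial.pderiv i f * JO ι' =
      ∑ l, MvPolynomial.pderiv (ι' l) f * JO (Function.update ι' l i) := by
    intro ι' i
    apply MvPolynomial.map_injective _ hOinj
    rw [map_mul, map_sum, ← MvPolynomial.pderiv_map, hJO, mul_smul_comm, hstar ι' i,
      Finset.smul_sum]
    refine Finset.sum_congr rfl fun l _ => ?_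
    rw [map_mul, ← MvPolynomial.pderiv_map, hJO, mul_smul_comm]
  have hstarb : ∀ (ι' : Fin r → Fin n) (i : Fin n),
      MvPolynomial.pderiv i (MvPolynomial.map (IsLocalRing.residue O) f) * Jb ι' =
      ∑ l, MvPolynomial.pderiv (ι' l) (MvPolynomial.map (IsLocalRing.residue O) f) *
        Jb (Function.update ι' l i) := by
    intro ι' i
    have h1 := congrArg (MvPolynomial.map (IsLocalRing.residue O)) (hstarO ι' i)
    rw [map_mul, map_sum, ← MvPolynomial.pderiv_map] at h1
    rw [hJb]
    simp only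
    rw [h1]
    refine Finset.sum_congr rfl fun l _ => ?_
    rw [map_mul, ← MvPolynomial.pderiv_map]
  -- K side
  obtain ⟨W, hW, hWfd, hWr, hWξ⟩ := hk_det α (k * d) s d r m hm V hV hVfd hVs hVd H hh w hwV p e l q hαK
  obtain ⟨ξ, hξ, hξeq⟩ := hWξ ι0
  set R0 : MvPolynomial (Fin n) O := ∏ j, ∏ a, G j a with hR0'
  have hR0u : IsUnit (MvPolynomial.eval (fun i => (α i : O)) R0) := by
    rw [hR0', map_prod, IsUnit.prod_univ_iff]
    intro j
    rw [map_prod, IsUnit.prod_univ_iff]
    exact hunit j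
  have hR0K : MvPolynomial.map (algebraMap O K) R0 = ∏ j, ∏ a, junta (p j a) (e j a) (l j a) := by
    rw [hR0', map_prod]
    refine Finset.prod_congr rfl fun j _ => ?_
    rw [map_prod]
    exact Finset.prod_congr rfl fun a _ => hGeq j a
  have hJK : (PhiY α (MvPolynomial.map (algebraMap O K) (JO ι0)) : PowerSeries (Y (Fin n) K)) =
      PowerSeries.C (MvPolynomial.C x) *
        ((PhiY α (MvPolynomial.map (algebraMap O K) R0) : PowerSeries (Y (Fin n) K)) * ξ) := by
    rw [hJO, hR0K, ← hξeq, map_smul]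
    have h4 : ∀ P : Polynomial (Y (Fin n) K), (x • P : Polynomial (Y (Fin n) K)) =
        Polynomial.C (MvPolynomial.C x) * P := by
      intro P
      rw [← MvPolynomial.algebraMap_eq, ← Polynomial.algebraMap_apply, ← Algebra.smul_def]
    rw [h4, Polynomial.coe_mul, Polynomial.coe_C]
  have hJdeg : (MvPolynomial.map (IsLocalRing.residue O) (JO ι0)).totalDegree ≤ k * d := by
    refine (totalDegree_map_le' _ _).trans ?_
    rw [← totalDegree_map_eq (algebraMap O K) hOinj, hJO]
    refine (MvPolynomial.totalDegree_smul_le _ _).trans ?_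
    refine (det_totalDegree _ fun l j => ?_).trans (Nat.mul_le_mul_right d hrk)
    exact UU_degree _ _ _ _ _ d (hrad j) (hradd j) (hwd j _)
  obtain ⟨V', m0, hV', hV'fd, hV'r, hc0, hcV⟩ := low_coeff α (k * d) (JO ι0) R0 hR0u W hWfd hW ξ hξ x
    hJK hJb0 hJdeg
  obtain ⟨z, t, hz, ht, hpt⟩ := hit_coeff n (k * d) (base ^ r) M α _ hJdeg V' hV' hV'fd
    (hV'r.trans hWr) m0 hc0 hcV hNr
  -- directions
  set P : Fin n → κ := fun i => ((α i + z * AA M (i + 1) t : ℕ) : κ) with hP
  obtain ⟨y, hy, hyv⟩ := exists_dir (κ := κ) (fun ι' => MvPolynomial.eval P (Jb ι')) ⟨ι0, hpt⟩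
  have htrv := transversal (MvPolynomial.map (IsLocalRing.residue O) f) hF Jb hstarb P
    (fun l i => (y l : κ) ^ (i : ℕ)) hyv
  exact ⟨u, z, t, r, y, hu, hz, ht, hrk, hy, htrv⟩

theorem core {F : Type*} [Field F] [CharZero F] (res : O →+* F) [IsLocalHom res]
    (n N k c s d D : ℕ) (T : Fin N → MvPolynomial (Fin n) K)
    (hT : ∀ j, Term c s d (T j))
    (htr : ∀ ι : Fin (k + 1) → Fin N, ¬ AlgebraicIndependent K (fun j => T (ι j)))
    (f : MvPolynomial (Fin n) O)
    (hf : IsAlgebraic (Algebra.adjoin K (Set.range T)) (MvPolynomial.map (algebraMap O K) f))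
    (hF : MvPolynomial.map res f ≠ 0) (g : MvPolynomial (Fin n) F)
    (hg : g ∣ MvPolynomial.map res f) (hgD : g.totalDegree ≤ D) :
    ∃ (u z t : ℕ) (y ζ : Fin k → ℕ), u ≤ k * d * (d * M0 n k c s d) ∧ z ≤ k * d ∧
      t ≤ k * d * M0 n k c s d ∧ (∀ l, y l ≤ n) ∧ (∀ l, ζ l ≤ D) ∧
      MvPolynomial.eval (fun i : Fin n => ((AA (M0 n k c s d) (i + 1) u +
        z * AA (M0 n k c s d) (i + 1) t + ∑ l, ζ l * y l ^ (i : ℕ) : ℕ) : F)) g ≠ 0 := by
  classical
  have hres : (IsLocalRing.ResidueField.lift res).comp (IsLocalRing.residue O) = res :=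
    RingHom.ext fun x => IsLocalRing.ResidueField.lift_residue_apply res x
  have hinj : Function.Injective (IsLocalRing.ResidueField.lift res) :=
    (IsLocalRing.ResidueField.lift res).injective
  have hF' : MvPolynomial.map (IsLocalRing.residue O) f ≠ 0 := by
    intro h
    apply hF
    rw [← hres, ← MvPolynomial.map_map, h, map_zero]
  haveI : CharZero (IsLocalRing.ResidueField O) := (IsLocalRing.ResidueField.lift res).charZero
  obtain ⟨u, z, t, r, y, hu, hz, ht, hrk, hy, hne⟩ := core1 n N k c s d T hT htr f hf hF'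
  set M := M0 n k c s d with hM
  set P : Fin n → F := fun i => ((AA M (i + 1) u + z * AA M (i + 1) t : ℕ) : F) with hP
  set ψ : MvPolynomial (Fin n) F →ₐ[F] MvPolynomial (Fin r) F := MvPolynomial.aeval
    (fun i => MvPolynomial.C (P i) + ∑ l, MvPolynomial.C ((y l : F) ^ (i : ℕ)) * MvPolynomial.X l)
    with hψ
  have htrv : ψ (MvPolynomial.map res f) ≠ 0 := by
    intro h0
    apply hne
    apply MvPolynomial.map_injective _ hinj
    have hfr : MvPolynomial.map res f = MvPolynomial.map (IsLocalRing.ResidueField.lift res)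
        (MvPolynomial.map (IsLocalRing.residue O) f) := by
      rw [MvPolynomial.map_map, hres]
    rw [hfr] at h0
    rw [map_zero]
    exact (map_dir (IsLocalRing.ResidueField.lift res) n r
      (fun i => AA M (i + 1) u + z * AA M (i + 1) t) y _).trans h0
  have hψg : ψ g ≠ 0 := by
    intro h1
    obtain ⟨g2, hg2⟩ := hg
    apply htrv
    rw [hg2, map_mul, h1, zero_mul]
  have hψd : (ψ g).totalDegree ≤ D := by
    refine le_trans ?_ hgD
    rw [hψ, MvPolynomial.aeval_def, MvPolynomial.eval₂_eq]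
    refine MvPolynomial.totalDegree_finsetSum_le fun ν hν => ?_
    refine (MvPolynomial.totalDegree_mul _ _).trans ?_
    rw [MvPolynomial.algebraMap_eq, MvPolynomial.totalDegree_C, zero_add]
    refine (MvPolynomial.totalDegree_finsetProd _ _).trans ?_
    refine (Finset.sum_le_sum (g := fun i => ν i) fun i _ => ?_).trans ?_
    · refine (MvPolynomial.totalDegree_pow _ _).trans ?_
      have h1 : (MvPolynomial.C (P i) + ∑ l, MvPolynomial.C ((y l : F) ^ (i : ℕ)) *
          (MvPolynomial.X l : MvPolynomial (Fin r) F)).totalDegree ≤ 1 := by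
        refine (MvPolynomial.totalDegree_add _ _).trans (max_le ?_ ?_)
        · rw [MvPolynomial.totalDegree_C]
          exact Nat.zero_le _
        · refine MvPolynomial.totalDegree_finsetSum_le fun l _ => ?_
          refine (MvPolynomial.totalDegree_mul _ _).trans ?_
          rw [MvPolynomial.totalDegree_C, zero_add, MvPolynomial.totalDegree_X]
      calc ν i * _ ≤ ν i * 1 := Nat.mul_le_mul_left _ h1
        _ = ν i := mul_one _
    · exact MvPolynomial.le_totalDegree hν
  obtain ⟨ζ, hζ, hζe⟩ := exists_grid (ψ g) hψg D hψd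
  obtain ⟨y', ζ', hy', hζ', hpad⟩ := pad n r k D hrk y ζ hy hζ
  refine ⟨u, z, t, y', ζ', hu, hz, ht, hy', hζ', ?_⟩
  intro h1
  apply hζe
  rw [← h1]
  have h2 : MvPolynomial.eval (fun l => (ζ l : F)) (ψ g) =
      MvPolynomial.eval (fun i : Fin n => ((AA M (i + 1) u + z * AA M (i + 1) t +
        ∑ l, ζ' l * y' l ^ (i : ℕ) : ℕ) : F)) g := by
    rw [hψ, MvPolynomial.aeval_def, MvPolynomial.hom_eval₂]
    have h3 : (MvPolynomial.eval (fun l => (ζ l : F))).comp
        (algebraMap F (MvPolynomial (Fin r) F)) = RingHom.id F := by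
      refine RingHom.ext fun w => ?_
      rw [RingHom.comp_apply, MvPolynomial.algebraMap_eq, MvPolynomial.eval_C]
      rfl
    rw [h3]
    show _ = MvPolynomial.eval₂ (RingHom.id F) _ g
    congr 1
    funext i
    rw [hpad]
    simp only [map_add, map_sum, map_mul, MvPolynomial.eval_C, MvPolynomial.eval_X]
    rw [Nat.cast_add (AA M (i + 1) u + z * AA M (i + 1) t), Nat.cast_sum]
    have h6 : ∀ l : Fin r, (y l : F) ^ (i : ℕ) * (ζ l : F) = ((ζ l * y l ^ (i : ℕ) : ℕ) : F) := by
      intro l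
      rw [Nat.cast_mul, Nat.cast_pow, mul_comm]
    rw [Finset.sum_congr rfl fun l _ => h6 l]
  exact h2

end main

end Pool.Agent.SPH
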