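import Mathlib

/-!
# SPH: polynomials constant along a linear foliation
-/

set_option autoImplicit false

namespace Pool.Agent.SPH

open MvPolynomial

variable {κ : Type*} [Field κ] [CharZero κ] {n r : ℕ}

omit [CharZero κ] in
private theorem tra_comm (i j : Fin n) (p : MvPolynomial (Fin n) κ) :
    pderiv i (pderiv j p) = pderiv j (pderiv i p) := by
  classical
  rcases eq_or_ne i j with h | h
  · rw [h]
  ext m
  rw [coeff_pderiv, coeff_pderiv, coeff_pderiv, coeff_pderiv, add_right_comm]
  have h1 : (m + (Finsupp.single i 1 : Fin n →₀ ℕ)) j = m j := by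
    simp [h]
  have h2 : (m + (Finsupp.single j 1 : Fin n →₀ ℕ)) i = m i := by
    simp [h.symm]
  rw [h1, h2]
  ring

/- PLAN. Induction on `m`.  `m = 0`: `G` is a constant.  `m + 1`: Euler's identity
`(m+1) G = ∑ i, X i * ∂_i G` (`MvPolynomial.IsHomogeneous.sum_X_mul_pderiv` or from
`coeff`/`sum_X_mul_pderiv` in Mathlib), `D_l = ∑ i, C (v l i) * ∂_i G` is homogeneous of degree `m` and
satisfies the same equations (derivatives commute, constant coefficients), so `φ (ψ D_l) = D_l`;
`(m+1) ψ G = ∑ l, X l * ψ D_l`; apply `φ`: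
`(m+1) φ (ψ G) = ∑ l, (∑ i, C (c l i) * X i) * D_l = ∑ i, X i * ∂_i G = (m+1) G`. -/
theorem phi_psi (v c : Fin r → Fin n → κ) (m : ℕ) (G : MvPolynomial (Fin n) κ)
    (hG : G.IsHomogeneous m)
    (h : ∀ i, pderiv i G = ∑ l, C (c l i) * ∑ a, C (v l a) * pderiv a G) :
    aeval (fun l => ∑ i, C (c l i) * X i : Fin r → MvPolynomial (Fin n) κ)
      (aeval (fun i => ∑ l, C (v l i) * X l : Fin n → MvPolynomial (Fin r) κ) G) = G := by
  induction m generalizing G with
  | zero =>
    rw [← totalDegree_zero_iff_isHomogeneous, totalDegree_eq_zero_iff_eq_C] at hG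
    rw [hG]
    simp [algHom_C, algebraMap_eq]
  | succ m ih =>
    set φ : MvPolynomial (Fin r) κ →ₐ[κ] MvPolynomial (Fin n) κ :=
      aeval (fun l => ∑ i, C (c l i) * X i : Fin r → MvPolynomial (Fin n) κ) with hφ
    set ψ : MvPolynomial (Fin n) κ →ₐ[κ] MvPolynomial (Fin r) κ :=
      aeval (fun i => ∑ l, C (v l i) * X l : Fin n → MvPolynomial (Fin r) κ) with hψ
    have hD : ∀ l : Fin r, φ (ψ (∑ a, C (v l a) * pderiv a G)) = ∑ a, C (v l a) * pderiv a G := by
      intro l
      apply ih
      · apply IsHomogeneous.sum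
        intro a _
        have h1 := (isHomogeneous_C (Fin n) (v l a)).mul (hG.pderiv (i := a))
        rw [Nat.add_sub_cancel, zero_add] at h1
        exact h1
      · intro i
        have hl : pderiv i (∑ a, C (v l a) * pderiv a G)
            = ∑ a, C (v l a) * pderiv a (pderiv i G) := by
          rw [map_sum]
          refine Finset.sum_congr rfl fun a _ => ?_
          rw [pderiv_C_mul, tra_comm]
        rw [hl, h i]
        simp only [map_sum, pderiv_C_mul, Finset.mul_sum]
        rw [Finset.sum_comm]
        refine Finset.sum_congr rfl fun k _ => ?_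
        rw [Finset.sum_comm]
        refine Finset.sum_congr rfl fun b _ => ?_
        refine Finset.sum_congr rfl fun a _ => ?_
        rw [tra_comm a b]
        ring
    have hE := hG.sum_X_mul_pderiv
    have hψE : ψ ((m + 1) • G) = ∑ l, X l * ψ (∑ a, C (v l a) * pderiv a G) := by
      rw [← hE, map_sum]
      have h1 : ∀ i : Fin n, ψ (X i * pderiv i G) = ∑ l, X l * (C (v l i) * ψ (pderiv i G)) := by
        intro i
        rw [map_mul, hψ, aeval_X, Finset.sum_mul]
        refine Finset.sum_congr rfl fun l _ => ?_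
        ring
      simp only [h1]
      rw [Finset.sum_comm]
      refine Finset.sum_congr rfl fun l _ => ?_
      rw [map_sum, Finset.mul_sum]
      refine Finset.sum_congr rfl fun i _ => ?_
      rw [map_mul, algHom_C, algebraMap_eq]
    have hφE : φ (ψ ((m + 1) • G)) = (m + 1) • G := by
      rw [hψE, map_sum]
      have h1 : ∀ l : Fin r, φ (X l * ψ (∑ a, C (v l a) * pderiv a G))
          = ∑ i, X i * (C (c l i) * ∑ a, C (v l a) * pderiv a G) := by
        intro l
        rw [map_mul, hD l, hφ, aeval_X, Finset.sum_mul]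
        refine Finset.sum_congr rfl fun i _ => ?_
        ring
      simp only [h1]
      rw [Finset.sum_comm, ← hE]
      refine Finset.sum_congr rfl fun i _ => ?_
      rw [← Finset.mul_sum, ← h i]
    rw [map_nsmul, map_nsmul] at hφE
    exact nsmul_right_injective (Nat.succ_ne_zero m) hφE

end Pool.Agent.SPH
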